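import Pool.Agent.H449R2.Fl.IsoTab

/-! Numbers of automorphisms (no classical instances here). -/

set_option autoImplicit false
set_option maxRecDepth 100000
open Finset

namespace Pool.Agent.H449R2.Fl

theorem auto_55 : (univ.filter fun g : Fin 5 → Fin 5 =>
    mk5 (fun i j l : Fin 5 => pe 55 i.val j.val l.val) (g 0) (g 1) (g 2) (g 3) (g 4) = 55 ∧
      Function.Injective g).card ≤ 4 := by decide +kernel

theorem auto_945 : (univ.filter fun g : Fin 5 → Fin 5 =>
    mk5 (fun i j l : Fin 5 => pe 945 i.val j.val l.val) (g 0) (g 1) (g 2) (g 3) (g 4) = 945 ∧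
      Function.Injective g).card ≤ 2 := by decide +kernel

end Pool.Agent.H449R2.Fl
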