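import Pool.Agent.H449R2.Fl.Sel

/-! Positivity of the square parts. -/

set_option autoImplicit false
open Finset

namespace Pool.Agent.H449R2.Fl

theorem sq_sum {X : Type} [Fintype X] (K : ℕ) (w : ℕ → ℕ) (g : X → ℕ → ℤ) :
    0 ≤ ∑ x, ∑ y, ∑ k ∈ range K, (w k : ℤ) * (g x k * g y k) := by
  have h : ∑ x, ∑ y, ∑ k ∈ range K, (w k : ℤ) * (g x k * g y k) =
      ∑ k ∈ range K, (w k : ℤ) * ((∑ x, g x k) * (∑ y, g y k)) := by
    have h1 : ∀ x, ∑ y, ∑ k ∈ range K, (w k : ℤ) * (g x k * g y k) =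
        ∑ k ∈ range K, ∑ y, (w k : ℤ) * (g x k * g y k) := fun x => sum_comm
    rw [sum_congr rfl fun x _ => h1 x, sum_comm]
    refine sum_congr rfl fun k _ => ?_
    simp only [← mul_sum]
    rw [sum_mul]
  rw [h]
  refine sum_nonneg fun k _ => mul_nonneg (Int.natCast_nonneg _) (mul_self_nonneg _)

section
variable {V : Type} {e : V → V → V → ℕ}

theorem sg_lt (he : Pat e) (a b c d : V) : sg e a b c d < 16 := by
  have h1 := he.le1 a b c
  have h2 := he.le1 a b d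
  have h3 := he.le1 a c d
  have h4 := he.le1 b c d
  simp only [sg, Nat.add_eq, Nat.mul_eq]
  omega

theorem ta_lt (he : Pat e) (a b c d x : V) : ta e a b c d x < 64 := by
  have h1 := he.le1 a b x
  have h2 := he.le1 a c x
  have h3 := he.le1 a d x
  have h4 := he.le1 b c x
  have h5 := he.le1 b d x
  have h6 := he.le1 c d x
  simp only [ta, Nat.add_eq, Nat.mul_eq]
  omega

theorem sg_mod (he : Pat e) (a b c d : V) : sg e a b c d % 2 = e a b c := by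
  have h1 := he.le1 a b c
  simp only [sg, Nat.add_eq, Nat.mul_eq]
  omega

variable [Fintype V]

theorem partT (he : Pat e) (T : ℕ → ℕ → ℕ → ℕ) (K : ℕ) (W : ℕ → ℕ → ℕ) (P : ℕ → ℕ → ℕ → ℤ)
    (off A : ℤ) (lin : ℕ → ℕ → ℤ)
    (hT : ∀ s < 16, ∀ i < 64, ∀ j < 64, (T s i j : ℤ) =
      off + ∑ k ∈ range K, (W s k : ℤ) * (P s i k * P s j k) + A * ((s % 2 : ℕ) : ℤ)
        - lin s i - lin s j) (a b c d : V) :
    (off + A * (e a b c : ℤ)) * (Fintype.card V : ℤ) ^ 2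
      - 2 * (Fintype.card V : ℤ) * ∑ x, lin (sg e a b c d) (ta e a b c d x) ≤
    ∑ x, ∑ y, (T (sg e a b c d) (ta e a b c d x) (ta e a b c d y) : ℤ) := by
  have h1 : ∑ x, ∑ y, (T (sg e a b c d) (ta e a b c d x) (ta e a b c d y) : ℤ) =
      ∑ x, ∑ y, ((off + A * (e a b c : ℤ)) +
        ∑ k ∈ range K, (W (sg e a b c d) k : ℤ) * (P (sg e a b c d) (ta e a b c d x) k *
          P (sg e a b c d) (ta e a b c d y) k)
        - lin (sg e a b c d) (ta e a b c d x) - lin (sg e a b c d) (ta e a b c d y)) := by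
    refine sum_congr rfl fun x _ => sum_congr rfl fun y _ => ?_
    rw [hT _ (sg_lt he a b c d) _ (ta_lt he a b c d x) _ (ta_lt he a b c d y), sg_mod he]
    ring
  have h2 := sq_sum K (W (sg e a b c d)) (fun x k => P (sg e a b c d) (ta e a b c d x) k)
  rw [h1]
  simp only [sum_sub_distrib, sum_add_distrib, sum_const, card_univ, nsmul_eq_mul, ← mul_sum]
  nlinarith [h2]

theorem partq (he : Pat e) (q : ℕ → ℕ → ℕ) (K : ℕ) (W : ℕ → ℕ) (G : ℕ → ℕ → ℤ) (off : ℤ)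
    (hq : ∀ s < 16, ∀ t < 16, (q s t : ℤ) = off + ∑ k ∈ range K, (W k : ℤ) * (G s k * G t k))
    (a b : V) :
    off * (Fintype.card V : ℤ) ^ 4 ≤
      ∑ c, ∑ d, ∑ x, ∑ y, (q (sg e a b c d) (sg e a b x y) : ℤ) := by
  have h2 := sq_sum K W (fun (p : V × V) k => G (sg e a b p.1 p.2) k)
  simp only [Fintype.sum_prod_type] at h2
  have h1 : ∑ c, ∑ d, ∑ x, ∑ y, (q (sg e a b c d) (sg e a b x y) : ℤ) =
      ∑ c, ∑ d, ∑ x, ∑ y, (off + ∑ k ∈ range K, (W k : ℤ) *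
        (G (sg e a b c d) k * G (sg e a b x y) k)) :=
    sum_congr rfl fun c _ => sum_congr rfl fun d _ => sum_congr rfl fun x _ =>
      sum_congr rfl fun y _ => hq _ (sg_lt he _ _ _ _) _ (sg_lt he _ _ _ _)
  rw [h1]
  simp only [sum_add_distrib, sum_const, card_univ, nsmul_eq_mul]
  linarith [h2, show off * (Fintype.card V : ℤ) ^ 4 = (Fintype.card V : ℤ) * ((Fintype.card V : ℤ) *
    ((Fintype.card V : ℤ) * ((Fintype.card V : ℤ) * off))) by ring]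

theorem flag_lower (he : Pat e) (T : ℕ → ℕ → ℕ → ℕ) (q : ℕ → ℕ → ℕ) (K : ℕ) (W : ℕ → ℕ → ℕ)
    (P : ℕ → ℕ → ℕ → ℤ) (K2 : ℕ) (W2 : ℕ → ℕ) (G : ℕ → ℕ → ℤ) (off off2 A : ℤ)
    (lin : ℕ → ℕ → ℤ)
    (hT : ∀ s < 16, ∀ i < 64, ∀ j < 64, (T s i j : ℤ) =
      off + ∑ k ∈ range K, (W s k : ℤ) * (P s i k * P s j k) + A * ((s % 2 : ℕ) : ℤ)
        - lin s i - lin s j)
    (hq : ∀ s < 16, ∀ t < 16, (q s t : ℤ) =
      off2 + ∑ k ∈ range K2, (W2 k : ℤ) * (G s k * G t k)) :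
    (off + off2) * (Fintype.card V : ℤ) ^ 6
      + A * (Fintype.card V : ℤ) ^ 3 * ∑ a, ∑ b, ∑ c, (e a b c : ℤ)
      - 2 * (Fintype.card V : ℤ) * ∑ a, ∑ b, ∑ c, ∑ d, ∑ x, lin (sg e a b c d) (ta e a b c d x) ≤
    ((∑ a, ∑ b, ∑ c, ∑ d, ∑ x, ∑ y, phi e T q a b c d x y : ℕ) : ℤ) := by
  set n : ℤ := (Fintype.card V : ℤ) with hn
  have h1 : ∑ a : V, ∑ b : V, ∑ c : V, ∑ d : V, ((off + A * (e a b c : ℤ)) * n ^ 2
      - 2 * n * ∑ x, lin (sg e a b c d) (ta e a b c d x)) ≤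
      ∑ a, ∑ b, ∑ c, ∑ d, ∑ x, ∑ y, (T (sg e a b c d) (ta e a b c d x) (ta e a b c d y) : ℤ) :=
    sum_le_sum fun a _ => sum_le_sum fun b _ => sum_le_sum fun c _ => sum_le_sum fun d _ =>
      partT he T K W P off A lin hT a b c d
  have h2 : ∑ a : V, ∑ b : V, off2 * n ^ 4 ≤
      ∑ a, ∑ b, ∑ c, ∑ d, ∑ x, ∑ y, (q (sg e a b c d) (sg e a b x y) : ℤ) :=
    sum_le_sum fun a _ => sum_le_sum fun b _ => partq he q K2 W2 G off2 hq a b
  have h3 : ((∑ a, ∑ b, ∑ c, ∑ d, ∑ x, ∑ y, phi e T q a b c d x y : ℕ) : ℤ) =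
      ∑ a, ∑ b, ∑ c, ∑ d, ∑ x, ∑ y, (T (sg e a b c d) (ta e a b c d x) (ta e a b c d y) : ℤ) +
      ∑ a, ∑ b, ∑ c, ∑ d, ∑ x, ∑ y, (q (sg e a b c d) (sg e a b x y) : ℤ) := by
    simp only [phi, Nat.add_eq]
    push_cast
    simp only [sum_add_distrib]
  have h4 : ∑ a : V, ∑ b : V, ∑ c : V, ∑ d : V, ((off + A * (e a b c : ℤ)) * n ^ 2
      - 2 * n * ∑ x, lin (sg e a b c d) (ta e a b c d x)) =
      off * n ^ 6 + A * n ^ 3 * ∑ a, ∑ b, ∑ c, (e a b c : ℤ)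
      - 2 * n * ∑ a, ∑ b, ∑ c, ∑ d, ∑ x, lin (sg e a b c d) (ta e a b c d x) := by
    have e1 : ∀ a b c : V, ∑ d : V, ((off + A * (e a b c : ℤ)) * n ^ 2
        - 2 * n * ∑ x, lin (sg e a b c d) (ta e a b c d x)) =
        off * n ^ 3 + A * n ^ 3 * (e a b c : ℤ)
          - 2 * n * ∑ d, ∑ x, lin (sg e a b c d) (ta e a b c d x) := fun a b c => by
      rw [sum_sub_distrib, sum_const, card_univ, nsmul_eq_mul, ← mul_sum, ← hn]
      ring
    have e2 : ∀ a b : V, ∑ c : V, (off * n ^ 3 + A * n ^ 3 * (e a b c : ℤ)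
          - 2 * n * ∑ d, ∑ x, lin (sg e a b c d) (ta e a b c d x)) =
        off * n ^ 4 + A * n ^ 3 * ∑ c, (e a b c : ℤ)
          - 2 * n * ∑ c, ∑ d, ∑ x, lin (sg e a b c d) (ta e a b c d x) := fun a b => by
      rw [sum_sub_distrib, sum_add_distrib, sum_const, card_univ, nsmul_eq_mul, ← mul_sum,
        ← mul_sum, ← hn]
      ring
    have e3 : ∀ a : V, ∑ b : V, (off * n ^ 4 + A * n ^ 3 * ∑ c, (e a b c : ℤ)
          - 2 * n * ∑ c, ∑ d, ∑ x, lin (sg e a b c d) (ta e a b c d x)) =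
        off * n ^ 5 + A * n ^ 3 * ∑ b, ∑ c, (e a b c : ℤ)
          - 2 * n * ∑ b, ∑ c, ∑ d, ∑ x, lin (sg e a b c d) (ta e a b c d x) := fun a => by
      rw [sum_sub_distrib, sum_add_distrib, sum_const, card_univ, nsmul_eq_mul, ← mul_sum,
        ← mul_sum, ← hn]
      ring
    rw [sum_congr rfl fun a _ => sum_congr rfl fun b _ => sum_congr rfl fun c _ => e1 a b c,
      sum_congr rfl fun a _ => sum_congr rfl fun b _ => e2 a b, sum_congr rfl fun a _ => e3 a,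
      sum_sub_distrib, sum_add_distrib, sum_const, card_univ, nsmul_eq_mul, ← mul_sum,
      ← mul_sum, ← hn]
    ring
  have h5 : ∑ a : V, ∑ b : V, off2 * n ^ 4 = off2 * n ^ 6 := by
    simp only [sum_const, card_univ, nsmul_eq_mul, ← hn]
    ring
  rw [h3]
  rw [h4] at h1
  rw [h5] at h2
  linarith

end

end Pool.Agent.H449R2.Fl
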