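import Pool.Agent.H449R2.Fl.Iso
import Pool.Agent.H449R2.Fl.Pos

/-! The general order-6 flag bound for 3-graphs. -/

set_option autoImplicit false
open Finset

namespace Pool.Agent.H449R2.Fl

/-- value of the functional on the 3-graph with mask `m` -/
def ev (T : ℕ → ℕ → ℕ → ℕ) (q : ℕ → ℕ → ℕ) (m : ℕ) : ℕ := sel6 (phi (pe m) T q) 0 1 2 3 4 5

theorem ev_eq {V : Type} (e : V → V → V → ℕ) (T : ℕ → ℕ → ℕ → ℕ) (q : ℕ → ℕ → ℕ) (v : Fin 6 → V)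
    (m : ℕ) (h : ∀ i j k : Fin 6, e (v i) (v j) (v k) = pe m i.val j.val k.val) :
    sel6 (phi e T q) (v 0) (v 1) (v 2) (v 3) (v 4) (v 5) = ev T q m := by
  have h1 : sel6 (phi e T q) (v 0) (v 1) (v 2) (v 3) (v 4) (v 5) =
      sel6 (phi (fun i j k : Fin 6 => e (v i) (v j) (v k)) T q) 0 1 2 3 4 5 := rfl
  have h2 : (fun i j k : Fin 6 => e (v i) (v j) (v k)) =
      fun i j k : Fin 6 => pe m i.val j.val k.val := by
    funext i j k
    exact h i j k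
  rw [h1, h2]
  rfl

theorem sel_le {V : Type} {e : V → V → V → ℕ} (he : Pat e) (T : ℕ → ℕ → ℕ → ℕ) (q : ℕ → ℕ → ℕ)
    (B : ℕ) (bad : ℕ → Bool)
    (hchk : ∀ h < 2136, (bad (rep6 h) || Nat.ble (ev T q (rep6 h)) B) = true)
    (hbad : ∀ (v : Fin 6 → V) (m : ℕ),
      (∀ i j k : Fin 6, e (v i) (v j) (v k) = pe m i.val j.val k.val) → bad m = false)
    (v : Fin 6 → V) : sel6 (phi e T q) (v 0) (v 1) (v 2) (v 3) (v 4) (v 5) ≤ B := by
  obtain ⟨π, hπ, h, hh, hm⟩ := iso_red (pat_comp he v)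
  have h1 := sel6_perm (phi e T q) v π hπ
  have h2 := ev_eq e T q (fun i => v (π i)) (rep6 h) hm
  have h3 := hbad (fun i => v (π i)) (rep6 h) hm
  have h4 := hchk h hh
  rw [h3, Bool.false_or] at h4
  rw [← h1]
  exact h2.le.trans (Nat.le_of_ble_eq_true h4)

theorem flag_bound {V : Type} [Fintype V] {e : V → V → V → ℕ} (he : Pat e)
    (T : ℕ → ℕ → ℕ → ℕ) (q : ℕ → ℕ → ℕ) (B : ℕ) (bad : ℕ → Bool)
    (hchk : ∀ h < 2136, (bad (rep6 h) || Nat.ble (ev T q (rep6 h)) B) = true)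
    (hbad : ∀ (v : Fin 6 → V) (m : ℕ),
      (∀ i j k : Fin 6, e (v i) (v j) (v k) = pe m i.val j.val k.val) → bad m = false)
    (K : ℕ) (W : ℕ → ℕ → ℕ)
    (P : ℕ → ℕ → ℕ → ℤ) (K2 : ℕ) (W2 : ℕ → ℕ) (G : ℕ → ℕ → ℤ) (off off2 A : ℤ)
    (lin : ℕ → ℕ → ℤ)
    (hT : ∀ s < 16, ∀ i < 64, ∀ j < 64, (T s i j : ℤ) =
      off + ∑ k ∈ range K, (W s k : ℤ) * (P s i k * P s j k) + A * ((s % 2 : ℕ) : ℤ)
        - lin s i - lin s j)
    (hq : ∀ s < 16, ∀ t < 16, (q s t : ℤ) =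
      off2 + ∑ k ∈ range K2, (W2 k : ℤ) * (G s k * G t k)) :
    720 * (A * (Fintype.card V : ℤ) ^ 3 * ∑ a, ∑ b, ∑ c, (e a b c : ℤ)) ≤
      ((B : ℤ) - 720 * (off + off2)) * (Fintype.card V : ℤ) ^ 6 +
      1440 * (Fintype.card V : ℤ) * ∑ a, ∑ b, ∑ c, ∑ d, ∑ x,
        lin (sg e a b c d) (ta e a b c d x) := by
  have h1 := flag_lower he T q K W P K2 W2 G off off2 A lin hT hq
  have h2 : ∑ a : V, ∑ b : V, ∑ c : V, ∑ d : V, ∑ x : V, ∑ y : V,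
      sel6 (phi e T q) a b c d x y ≤ B * Fintype.card V ^ 6 := by
    have h3 : ∑ a : V, ∑ b : V, ∑ c : V, ∑ d : V, ∑ x : V, ∑ y : V,
        sel6 (phi e T q) a b c d x y ≤
        ∑ a : V, ∑ b : V, ∑ c : V, ∑ d : V, ∑ x : V, ∑ y : V, B :=
      sum_le_sum fun a _ => sum_le_sum fun b _ => sum_le_sum fun c _ => sum_le_sum fun d _ =>
        sum_le_sum fun x _ => sum_le_sum fun y _ =>
          sel_le he T q B bad hchk hbad ![a, b, c, d, x, y]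
    refine h3.trans (le_of_eq ?_)
    simp only [sum_const, card_univ, smul_eq_mul]
    ring
  rw [tot6] at h2
  have h4 : (720 : ℤ) * ((∑ a, ∑ b, ∑ c, ∑ d, ∑ x, ∑ y, phi e T q a b c d x y : ℕ) : ℤ) ≤
      (B : ℤ) * (Fintype.card V : ℤ) ^ 6 := by exact_mod_cast h2
  linarith

/-- some four vertices span a complete 3-graph -/
def hasK4 (m : ℕ) : Bool :=
  or (Nat.beq (sg (pe m) 0 1 2 3) 15) (or (Nat.beq (sg (pe m) 0 1 2 4) 15)
  (or (Nat.beq (sg (pe m) 0 1 2 5) 15) (or (Nat.beq (sg (pe m) 0 1 3 4) 15)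
  (or (Nat.beq (sg (pe m) 0 1 3 5) 15) (or (Nat.beq (sg (pe m) 0 1 4 5) 15)
  (or (Nat.beq (sg (pe m) 0 2 3 4) 15) (or (Nat.beq (sg (pe m) 0 2 3 5) 15)
  (or (Nat.beq (sg (pe m) 0 2 4 5) 15) (or (Nat.beq (sg (pe m) 0 3 4 5) 15)
  (or (Nat.beq (sg (pe m) 1 2 3 4) 15) (or (Nat.beq (sg (pe m) 1 2 3 5) 15)
  (or (Nat.beq (sg (pe m) 1 2 4 5) 15) (or (Nat.beq (sg (pe m) 1 3 4 5) 15)
  (Nat.beq (sg (pe m) 2 3 4 5) 15))))))))))))))

theorem hasK4_false {V : Type} {e : V → V → V → ℕ} (hK : ∀ a b c d, sg e a b c d ≠ 15)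
    (v : Fin 6 → V) (m : ℕ)
    (h : ∀ i j k : Fin 6, e (v i) (v j) (v k) = pe m i.val j.val k.val) : hasK4 m = false := by
  have key : ∀ i j k l : Fin 6, Nat.beq (sg (pe m) i.val j.val k.val l.val) 15 = false := by
    intro i j k l
    have h1 : sg (pe m) i.val j.val k.val l.val = sg e (v i) (v j) (v k) (v l) := by
      simp only [sg, h]
    rw [h1]
    have h2 := hK (v i) (v j) (v k) (v l)
    exact Bool.eq_false_iff.mpr fun h3 => h2 (Nat.eq_of_beq_eq_true h3)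
  have k0 := key 0 1 2 3
  have k1 := key 0 1 2 4
  have k2 := key 0 1 2 5
  have k3 := key 0 1 3 4
  have k4 := key 0 1 3 5
  have k5 := key 0 1 4 5
  have k6 := key 0 2 3 4
  have k7 := key 0 2 3 5
  have k8 := key 0 2 4 5
  have k9 := key 0 3 4 5
  have k10 := key 1 2 3 4
  have k11 := key 1 2 3 5
  have k12 := key 1 2 4 5
  have k13 := key 1 3 4 5
  have k14 := key 2 3 4 5
  simp only [Fin.val_zero, Fin.val_one, Fin.val_two] at *
  unfold hasK4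
  simp only [Bool.or_eq_false_iff]
  exact ⟨k0, k1, k2, k3, k4, k5, k6, k7, k8, k9, k10, k11, k12, k13, k14⟩

end Pool.Agent.H449R2.Fl
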