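import Pool.Agent.H449R2.Fl.Bound

/-! The order-6 flag bound with a general objective. -/

set_option autoImplicit false
open Finset

namespace Pool.Agent.H449R2.Fl

section
variable {V : Type} {e : V → V → V → ℕ} [Fintype V]

theorem partT2 (he : Pat e) (T : ℕ → ℕ → ℕ → ℕ) (K : ℕ) (W : ℕ → ℕ → ℕ) (P : ℕ → ℕ → ℕ → ℤ)
    (off : ℤ) (ob : ℕ → ℕ → ℕ → ℤ)
    (hT : ∀ s < 16, ∀ i < 64, ∀ j < 64, (T s i j : ℤ) =
      off + ∑ k ∈ range K, (W s k : ℤ) * (P s i k * P s j k) + ob s i j) (a b c d : V) :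
    off * (Fintype.card V : ℤ) ^ 2
      + ∑ x, ∑ y, ob (sg e a b c d) (ta e a b c d x) (ta e a b c d y) ≤
    ∑ x, ∑ y, (T (sg e a b c d) (ta e a b c d x) (ta e a b c d y) : ℤ) := by
  have h1 : ∑ x, ∑ y, (T (sg e a b c d) (ta e a b c d x) (ta e a b c d y) : ℤ) =
      ∑ x, ∑ y, (off +
        ∑ k ∈ range K, (W (sg e a b c d) k : ℤ) * (P (sg e a b c d) (ta e a b c d x) k *
          P (sg e a b c d) (ta e a b c d y) k)
        + ob (sg e a b c d) (ta e a b c d x) (ta e a b c d y)) := by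
    refine sum_congr rfl fun x _ => sum_congr rfl fun y _ => ?_
    rw [hT _ (sg_lt he a b c d) _ (ta_lt he a b c d x) _ (ta_lt he a b c d y)]
  have h2 := sq_sum K (W (sg e a b c d)) (fun x k => P (sg e a b c d) (ta e a b c d x) k)
  rw [h1]
  simp only [sum_add_distrib, sum_const, card_univ, nsmul_eq_mul]
  nlinarith [h2]

theorem flag_lower2 (he : Pat e) (T : ℕ → ℕ → ℕ → ℕ) (q : ℕ → ℕ → ℕ) (K : ℕ) (W : ℕ → ℕ → ℕ)
    (P : ℕ → ℕ → ℕ → ℤ) (K2 : ℕ) (W2 : ℕ → ℕ) (G : ℕ → ℕ → ℤ) (off off2 : ℤ)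
    (ob : ℕ → ℕ → ℕ → ℤ)
    (hT : ∀ s < 16, ∀ i < 64, ∀ j < 64, (T s i j : ℤ) =
      off + ∑ k ∈ range K, (W s k : ℤ) * (P s i k * P s j k) + ob s i j)
    (hq : ∀ s < 16, ∀ t < 16, (q s t : ℤ) =
      off2 + ∑ k ∈ range K2, (W2 k : ℤ) * (G s k * G t k)) :
    (off + off2) * (Fintype.card V : ℤ) ^ 6
      + ∑ a, ∑ b, ∑ c, ∑ d, ∑ x, ∑ y, ob (sg e a b c d) (ta e a b c d x) (ta e a b c d y) ≤
    ((∑ a, ∑ b, ∑ c, ∑ d, ∑ x, ∑ y, phi e T q a b c d x y : ℕ) : ℤ) := by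
  set n : ℤ := (Fintype.card V : ℤ) with hn
  have h1 : ∑ a : V, ∑ b : V, ∑ c : V, ∑ d : V, (off * n ^ 2
      + ∑ x, ∑ y, ob (sg e a b c d) (ta e a b c d x) (ta e a b c d y)) ≤
      ∑ a, ∑ b, ∑ c, ∑ d, ∑ x, ∑ y, (T (sg e a b c d) (ta e a b c d x) (ta e a b c d y) : ℤ) :=
    sum_le_sum fun a _ => sum_le_sum fun b _ => sum_le_sum fun c _ => sum_le_sum fun d _ =>
      partT2 he T K W P off ob hT a b c d
  have h2 : ∑ a : V, ∑ b : V, off2 * n ^ 4 ≤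
      ∑ a, ∑ b, ∑ c, ∑ d, ∑ x, ∑ y, (q (sg e a b c d) (sg e a b x y) : ℤ) :=
    sum_le_sum fun a _ => sum_le_sum fun b _ => partq he q K2 W2 G off2 hq a b
  have h3 : ((∑ a, ∑ b, ∑ c, ∑ d, ∑ x, ∑ y, phi e T q a b c d x y : ℕ) : ℤ) =
      ∑ a, ∑ b, ∑ c, ∑ d, ∑ x, ∑ y, (T (sg e a b c d) (ta e a b c d x) (ta e a b c d y) : ℤ) +
      ∑ a, ∑ b, ∑ c, ∑ d, ∑ x, ∑ y, (q (sg e a b c d) (sg e a b x y) : ℤ) := by
    simp only [phi, Nat.add_eq]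
    push_cast
    simp only [sum_add_distrib]
  have h4 : ∑ a : V, ∑ b : V, ∑ c : V, ∑ d : V, off * n ^ 2 = off * n ^ 6 := by
    simp only [sum_const, card_univ, nsmul_eq_mul, ← hn]
    ring
  have h5 : ∑ a : V, ∑ b : V, off2 * n ^ 4 = off2 * n ^ 6 := by
    simp only [sum_const, card_univ, nsmul_eq_mul, ← hn]
    ring
  simp only [sum_add_distrib] at h1
  rw [h4] at h1
  rw [h3]
  rw [h5] at h2
  linarith

theorem flag_bound2 (he : Pat e)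
    (T : ℕ → ℕ → ℕ → ℕ) (q : ℕ → ℕ → ℕ) (B : ℕ) (bad : ℕ → Bool)
    (hchk : ∀ h < 2136, (bad (rep6 h) || Nat.ble (ev T q (rep6 h)) B) = true)
    (hbad : ∀ (v : Fin 6 → V) (m : ℕ),
      (∀ i j k : Fin 6, e (v i) (v j) (v k) = pe m i.val j.val k.val) → bad m = false)
    (K : ℕ) (W : ℕ → ℕ → ℕ)
    (P : ℕ → ℕ → ℕ → ℤ) (K2 : ℕ) (W2 : ℕ → ℕ) (G : ℕ → ℕ → ℤ) (off off2 : ℤ)
    (ob : ℕ → ℕ → ℕ → ℤ)
    (hT : ∀ s < 16, ∀ i < 64, ∀ j < 64, (T s i j : ℤ) =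
      off + ∑ k ∈ range K, (W s k : ℤ) * (P s i k * P s j k) + ob s i j)
    (hq : ∀ s < 16, ∀ t < 16, (q s t : ℤ) =
      off2 + ∑ k ∈ range K2, (W2 k : ℤ) * (G s k * G t k)) :
    720 * ∑ a, ∑ b, ∑ c, ∑ d, ∑ x, ∑ y, ob (sg e a b c d) (ta e a b c d x) (ta e a b c d y) ≤
      ((B : ℤ) - 720 * (off + off2)) * (Fintype.card V : ℤ) ^ 6 := by
  have h1 := flag_lower2 he T q K W P K2 W2 G off off2 ob hT hq
  have h2 : ∑ a : V, ∑ b : V, ∑ c : V, ∑ d : V, ∑ x : V, ∑ y : V,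
      sel6 (phi e T q) a b c d x y ≤ B * Fintype.card V ^ 6 := by
    have h3 : ∑ a : V, ∑ b : V, ∑ c : V, ∑ d : V, ∑ x : V, ∑ y : V,
        sel6 (phi e T q) a b c d x y ≤
        ∑ a : V, ∑ b : V, ∑ c : V, ∑ d : V, ∑ x : V, ∑ y : V, B :=
      sum_le_sum fun a _ => sum_le_sum fun b _ => sum_le_sum fun c _ => sum_le_sum fun d _ =>
        sum_le_sum fun x _ => sum_le_sum fun y _ =>
          sel_le he T q B bad hchk hbad ![a, b, c, d, x, y]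
    refine h3.trans (le_of_eq ?_)
    simp only [sum_const, card_univ, smul_eq_mul]
    ring
  rw [tot6] at h2
  have h4 : (720 : ℤ) * ((∑ a, ∑ b, ∑ c, ∑ d, ∑ x, ∑ y, phi e T q a b c d x y : ℕ) : ℤ) ≤
      (B : ℤ) * (Fintype.card V : ℤ) ^ 6 := by exact_mod_cast h2
  linarith

end

end Pool.Agent.H449R2.Fl
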