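import Pool.Agent.H449R2.Fl.C21T
import Pool.Agent.H449R2.Fl.C21S0
import Pool.Agent.H449R2.Fl.C21S1
import Pool.Agent.H449R2.Fl.C21S2

/-! The certificate as a bound (generated). -/

set_option autoImplicit false
set_option maxRecDepth 100000
open Finset

namespace Pool.Agent.H449R2.Fl.C21

theorem hchk : ∀ h < 2136, (hasK4 (rep6 h) || Nat.ble (ev T q (rep6 h)) B) = true := by
  intro h hh
  have key : ∀ g < 24, nall 89 (fun k => ckS hasK4 T q B (Nat.add (Nat.mul 89 g) k)) = true := by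
    intro g hg
    interval_cases g
    exacts [s0, s1, s2, s3, s4, s5, s6, s7, s8, s9, s10, s11, s12, s13, s14, s15, s16, s17, s18, s19, s20, s21, s22, s23]
  have h1 := nall_true (key (h / 89) (by omega)) (h % 89) (Nat.mod_lt _ (by norm_num))
  have h2 : Nat.add (Nat.mul 89 (h / 89)) (h % 89) = h := Nat.div_add_mod h 89
  rw [h2] at h1
  exact h1

theorem e1 (i j : ℕ) (hi : i < 64) (hj : j < 64) : ckE 56 4096 2241855488 w1 l1 t1 (pen 1) i j = true := by
  have key : ∀ g < 4, nall 16 (fun i => nall 64 fun j => ckE 56 4096 2241855488 w1 l1 t1 (pen 1)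
      (Nat.add (Nat.mul 16 g) i) j) = true := by
    intro g hg
    interval_cases g
    exacts [c1_0, c1_1, c1_2, c1_3]
  have h1 := nall_true (nall_true (key (i / 16) (by omega)) (i % 16) (Nat.mod_lt _ (by norm_num))) j hj
  have h2 : Nat.add (Nat.mul 16 (i / 16)) (i % 16) = i := Nat.div_add_mod i 16
  rw [h2] at h1
  exact h1

theorem e3 (i j : ℕ) (hi : i < 64) (hj : j < 64) : ckE 50 4096 2241855488 w3 l3 t3 (pen 3) i j = true := by
  have key : ∀ g < 4, nall 16 (fun i => nall 64 fun j => ckE 50 4096 2241855488 w3 l3 t3 (pen 3)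
      (Nat.add (Nat.mul 16 g) i) j) = true := by
    intro g hg
    interval_cases g
    exacts [c3_0, c3_1, c3_2, c3_3]
  have h1 := nall_true (nall_true (key (i / 16) (by omega)) (i % 16) (Nat.mod_lt _ (by norm_num))) j hj
  have h2 : Nat.add (Nat.mul 16 (i / 16)) (i % 16) = i := Nat.div_add_mod i 16
  rw [h2] at h1
  exact h1

theorem e7 (i j : ℕ) (hi : i < 64) (hj : j < 64) : ckE 44 4096 2241855488 w7 l7 t7 (pen 7) i j = true := by
  have key : ∀ g < 4, nall 16 (fun i => nall 64 fun j => ckE 44 4096 2241855488 w7 l7 t7 (pen 7)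
      (Nat.add (Nat.mul 16 g) i) j) = true := by
    intro g hg
    interval_cases g
    exacts [c7_0, c7_1, c7_2, c7_3]
  have h1 := nall_true (nall_true (key (i / 16) (by omega)) (i % 16) (Nat.mod_lt _ (by norm_num))) j hj
  have h2 : Nat.add (Nat.mul 16 (i / 16)) (i % 16) = i := Nat.div_add_mod i 16
  rw [h2] at h1
  exact h1

/-- the weights -/
def W (s k : ℕ) : ℕ :=
  if s = 1 then (if k < 56 then w1 k else 0) else if s = 3 then (if k < 50 then w3 k else 0) else if s = 7 then (if k < 44 then w7 k else 0) else 0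
/-- the vectors -/
def P (s i k : ℕ) : ℤ :=
  if s = 1 then (l1 i k : ℤ) - 4096 else if s = 3 then (l3 i k : ℤ) - 4096 else if s = 7 then (l7 i k : ℤ) - 4096 else 0

theorem trunc (K : ℕ) (w : ℕ → ℕ) (f : ℕ → ℤ) (hK : K ≤ 56) :
    ∑ k ∈ range 56, ((if k < K then w k else 0 : ℕ) : ℤ) * f k = ∑ k ∈ range K, (w k : ℤ) * f k := by
  rw [← Finset.sum_subset (Finset.range_subset_range.mpr hK)]
  · exact sum_congr rfl fun k hk => by rw [if_pos (mem_range.mp hk)]
  · intro k _ hk
    rw [mem_range] at hk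
    rw [if_neg hk]; simp

theorem hT : ∀ s < 16, ∀ i < 64, ∀ j < 64, (T s i j : ℤ) =
    2147483648 + ∑ k ∈ range 56, (W s k : ℤ) * (P s i k * P s j k) + 94371840 * ((s % 2 : ℕ) : ℤ)
      - pen s i - pen s j := by
  intro s hs i hi j hj
  by_cases h1 : s = 1
  · subst h1
    have h := ckE_true (e1 i j hi hj)
    have h2 : T 1 i j = t1 i j := rfl
    have h3 : ∑ k ∈ range 56, (W 1 k : ℤ) * (P 1 i k * P 1 j k) = ∑ k ∈ range 56, (w1 k : ℤ) *
        (((l1 i k : ℤ) - 4096) * ((l1 j k : ℤ) - 4096)) :=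
      trunc 56 w1 (fun k => ((l1 i k : ℤ) - 4096) * ((l1 j k : ℤ) - 4096)) (by norm_num)
    rw [h2, h3, h]
    push_cast
    ring
  by_cases h3 : s = 3
  · subst h3
    have h := ckE_true (e3 i j hi hj)
    have h2 : T 3 i j = t3 i j := rfl
    have h3 : ∑ k ∈ range 56, (W 3 k : ℤ) * (P 3 i k * P 3 j k) = ∑ k ∈ range 50, (w3 k : ℤ) *
        (((l3 i k : ℤ) - 4096) * ((l3 j k : ℤ) - 4096)) :=
      trunc 50 w3 (fun k => ((l3 i k : ℤ) - 4096) * ((l3 j k : ℤ) - 4096)) (by norm_num)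
    rw [h2, h3, h]
    push_cast
    ring
  by_cases h7 : s = 7
  · subst h7
    have h := ckE_true (e7 i j hi hj)
    have h2 : T 7 i j = t7 i j := rfl
    have h3 : ∑ k ∈ range 56, (W 7 k : ℤ) * (P 7 i k * P 7 j k) = ∑ k ∈ range 44, (w7 k : ℤ) *
        (((l7 i k : ℤ) - 4096) * ((l7 j k : ℤ) - 4096)) :=
      trunc 44 w7 (fun k => ((l7 i k : ℤ) - 4096) * ((l7 j k : ℤ) - 4096)) (by norm_num)
    rw [h2, h3, h]
    push_cast
    ring
  have hW : ∀ k, W s k = 0 := fun k => by simp [W, h1, h3, h7]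
  have b1 : Nat.beq s 1 = false := Bool.eq_false_iff.mpr fun h => h1 (Nat.eq_of_beq_eq_true h)
  have b3 : Nat.beq s 3 = false := Bool.eq_false_iff.mpr fun h => h3 (Nat.eq_of_beq_eq_true h)
  have b7 : Nat.beq s 7 = false := Bool.eq_false_iff.mpr fun h => h7 (Nat.eq_of_beq_eq_true h)
  have hp : ∀ i, pen s i = 0 := fun i => by
    unfold pen
    rw [b1, Bool.false_and, cond_false]
  have hTs : T s i j = 2147483648 + 94371840 * (s % 2) := by
    unfold T
    rw [b1, cond_false, b3, cond_false, b7, cond_false]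
    rw [show Nat.land s 1 = s % 2 from Nat.and_one_is_mod s, Nat.add_eq, Nat.mul_eq]
  rw [hTs, hp, hp]
  simp only [hW]
  push_cast
  simp

/-- the vectors of the two-root part -/
def G (s k : ℕ) : ℤ := (lq s k : ℤ) - 4096

theorem hq : ∀ s < 16, ∀ t < 16, (q s t : ℤ) =
    268435456 + ∑ k ∈ range 11, (wq k : ℤ) * (G s k * G t k) := by
  intro s hs t ht
  have h := ckE_true (nall_true (nall_true cq s hs) t ht)
  rw [h]
  unfold G
  push_cast
  ring

theorem bound {V : Type} [Fintype V] {e : V → V → V → ℕ} (he : Pat e)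
    (hbad : ∀ (v : Fin 6 → V) (m : ℕ),
      (∀ i j k : Fin 6, e (v i) (v j) (v k) = pe m i.val j.val k.val) → hasK4 m = false) :
    720 * (94371840 * (Fintype.card V : ℤ) ^ 3 * ∑ a, ∑ b, ∑ c, (e a b c : ℤ)) ≤
      37748736000 * (Fintype.card V : ℤ) ^ 6 +
      1440 * (Fintype.card V : ℤ) * ∑ a, ∑ b, ∑ c, ∑ d, ∑ x,
        (pen (sg e a b c d) (ta e a b c d x) : ℤ) := by
  have h := flag_bound he T q B hasK4 hchk hbad 56 W P 11 wq G 2147483648 268435456 94371840
    (fun s i => (pen s i : ℤ)) hT hq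
  have hB : (B : ℤ) - 720 * (2147483648 + 268435456) = 37748736000 := by unfold B; norm_num
  rw [hB] at h
  exact h

end Pool.Agent.H449R2.Fl.C21
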