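import Pool.Agent.H449R2.Fl.C9Tab

/-! Kernel checks (generated). -/

set_option autoImplicit false
set_option maxRecDepth 100000

namespace Pool.Agent.H449R2.Fl.C9

theorem c1_0 : nall 16 (fun i => nall 64 fun j => ckE 56 2048 71827456 w1 l1 t1 (pen 1) (Nat.add 0 i) j) = true := by
  decide +kernel
theorem c1_1 : nall 16 (fun i => nall 64 fun j => ckE 56 2048 71827456 w1 l1 t1 (pen 1) (Nat.add 16 i) j) = true := by
  decide +kernel
theorem c1_2 : nall 16 (fun i => nall 64 fun j => ckE 56 2048 71827456 w1 l1 t1 (pen 1) (Nat.add 32 i) j) = true := by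
  decide +kernel
theorem c1_3 : nall 16 (fun i => nall 64 fun j => ckE 56 2048 71827456 w1 l1 t1 (pen 1) (Nat.add 48 i) j) = true := by
  decide +kernel
theorem c3_0 : nall 16 (fun i => nall 64 fun j => ckE 50 2048 71827456 w3 l3 t3 (pen 3) (Nat.add 0 i) j) = true := by
  decide +kernel
theorem c3_1 : nall 16 (fun i => nall 64 fun j => ckE 50 2048 71827456 w3 l3 t3 (pen 3) (Nat.add 16 i) j) = true := by
  decide +kernel
theorem c3_2 : nall 16 (fun i => nall 64 fun j => ckE 50 2048 71827456 w3 l3 t3 (pen 3) (Nat.add 32 i) j) = true := by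
  decide +kernel
theorem c3_3 : nall 16 (fun i => nall 64 fun j => ckE 50 2048 71827456 w3 l3 t3 (pen 3) (Nat.add 48 i) j) = true := by
  decide +kernel
theorem c7_0 : nall 16 (fun i => nall 64 fun j => ckE 44 2048 71827456 w7 l7 t7 (pen 7) (Nat.add 0 i) j) = true := by
  decide +kernel
theorem c7_1 : nall 16 (fun i => nall 64 fun j => ckE 44 2048 71827456 w7 l7 t7 (pen 7) (Nat.add 16 i) j) = true := by
  decide +kernel
theorem c7_2 : nall 16 (fun i => nall 64 fun j => ckE 44 2048 71827456 w7 l7 t7 (pen 7) (Nat.add 32 i) j) = true := by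
  decide +kernel
theorem c7_3 : nall 16 (fun i => nall 64 fun j => ckE 44 2048 71827456 w7 l7 t7 (pen 7) (Nat.add 48 i) j) = true := by
  decide +kernel
theorem cq : nall 16 (fun i => nall 16 fun j => ckE 11 2048 8388608 wq lq q (fun _ => 0) i j) = true := by
  decide +kernel

end Pool.Agent.H449R2.Fl.C9
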