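import Pool.Agent.H449R2.Fl.Bound

/-! Kernel-checkable form of the data of a certificate. -/

set_option autoImplicit false
open Finset

namespace Pool.Agent.H449R2.Fl

def nsum (n : ℕ) (f : ℕ → ℕ) : ℕ := Nat.rec 0 (fun k s => Nat.add s (f k)) n

theorem nsum_eq (n : ℕ) (f : ℕ → ℕ) : nsum n f = ∑ k ∈ range n, f k := by
  induction n with
  | zero => rfl
  | succ n ih => rw [sum_range_succ, ← ih]; rfl

/-- digit extraction: the `k`-th field of `w` bits (`M = 2 ^ w - 1`) of `n` -/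
def fld (w M n k : ℕ) : ℕ := Nat.land (Nat.shiftRight n (Nat.mul w k)) M

/-- weighted row sum -/
def rsm (K : ℕ) (w : ℕ → ℕ) (u : ℕ → ℕ) : ℕ := nsum K fun k => Nat.mul (w k) (u k)

/-- check of one entry of a table of scalar products -/
def ckE (K O c : ℕ) (w : ℕ → ℕ) (l : ℕ → ℕ → ℕ) (T : ℕ → ℕ → ℕ) (pen : ℕ → ℕ) (i j : ℕ) : Bool :=
  Nat.beq
    (Nat.add (nsum K fun k => Nat.mul (w k) (Nat.mul (l i k) (l j k)))
      (Nat.add c (Nat.mul (Nat.mul O O) (nsum K w))))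
    (Nat.add (Nat.add (T i j) (Nat.add (pen i) (pen j)))
      (Nat.mul O (Nat.add (rsm K w (l i)) (rsm K w (l j)))))

theorem expandW (K : ℕ) (w u v : ℕ → ℕ) (O : ℤ) :
    ∑ k ∈ range K, (w k : ℤ) * (((u k : ℤ) - O) * ((v k : ℤ) - O)) =
      ∑ k ∈ range K, (w k : ℤ) * ((u k : ℤ) * (v k : ℤ))
        - O * (∑ k ∈ range K, (w k : ℤ) * (u k : ℤ) + ∑ k ∈ range K, (w k : ℤ) * (v k : ℤ))
        + O ^ 2 * ∑ k ∈ range K, (w k : ℤ) := by
  rw [mul_add, mul_sum, mul_sum, mul_sum, ← sum_add_distrib, ← sum_sub_distrib, ← sum_add_distrib]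
  exact sum_congr rfl fun k _ => by ring

theorem ckE_true {K O c : ℕ} {w : ℕ → ℕ} {l : ℕ → ℕ → ℕ} {T : ℕ → ℕ → ℕ} {pen : ℕ → ℕ} {i j : ℕ}
    (h : ckE K O c w l T pen i j = true) :
    (T i j : ℤ) = c + ∑ k ∈ range K, (w k : ℤ) * (((l i k : ℤ) - O) * ((l j k : ℤ) - O))
      - pen i - pen j := by
  have h1 := Nat.eq_of_beq_eq_true h
  simp only [rsm, nsum_eq, Nat.add_eq, Nat.mul_eq] at h1
  have h2 := congrArg (fun n : ℕ => (n : ℤ)) h1
  push_cast at h2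
  rw [expandW K w (l i) (l j) O]
  linarith

/-- check of one six-vertex 3-graph -/
def ckS (bad : ℕ → Bool) (T : ℕ → ℕ → ℕ → ℕ) (q : ℕ → ℕ → ℕ) (B h : ℕ) : Bool :=
  or (bad (rep6 h)) (Nat.ble (ev T q (rep6 h)) B)

end Pool.Agent.H449R2.Fl
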