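import Pool.Agent.H449R2.Fl.Count5

/-! Induced copies of a five-vertex 3-graph. -/

set_option autoImplicit false
set_option maxRecDepth 100000
open Finset
open scoped Classical

namespace Pool.Agent.H449R2.Fl

/-- `S` induces in `H` a copy of the 3-graph `F` on five vertices -/
def Copy {V : Type} [DecidableEq V] (F : Finset (Finset (Fin 5))) (H : Finset (Finset V)) (S : Finset V) : Prop :=
  ∃ f : Fin 5 → V, Function.Injective f ∧ Finset.univ.image f = S ∧
    ∀ t : Finset (Fin 5), t.card = 3 → (t.image f ∈ H ↔ t ∈ F)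

theorem copies_le {V : Type} [Fintype V] [DecidableEq V] {H : Finset (Finset V)} (h3 : ∀ s ∈ H, s.card = 3)
    (F : Finset (Finset (Fin 5))) (M k : ℕ)
    (hF : ∀ i j l : Fin 5, i ≠ j → i ≠ l → j ≠ l →
      (pe M i.val j.val l.val = 1 ↔ ({i, j, l} : Finset (Fin 5)) ∈ F))
    (hA : (univ.filter fun g : Fin 5 → Fin 5 =>
      Cop (fun i j l : Fin 5 => pe M i.val j.val l.val) M g).card ≤ k) :
    (univ.filter fun f : Fin 5 → V => Cop (ind H) M f).card ≤
      k * (univ.filter fun S : Finset V => Copy F H S).card := by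
  refine (cop_card (ind_pat h3) M k hA).trans (Nat.mul_le_mul_left k (card_le_card ?_))
  intro S hS
  rw [mem_image] at hS
  obtain ⟨f, hf, rfl⟩ := hS
  rw [mem_filter] at hf
  rw [mem_filter]
  refine ⟨mem_univ _, f, hf.2.1, rfl, ?_⟩
  intro t ht
  obtain ⟨i, j, l, hij, hil, hjl, rfl⟩ := Finset.card_eq_three.mp ht
  have h1 := pe_tuple (ind_pat h3) f M hf.2.2 i j l
  rw [← hF i j l hij hil hjl, ← h1]
  unfold ind
  have h2 : ({i, j, l} : Finset (Fin 5)).image f = {f i, f j, f l} := by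
    simp [Finset.image_insert]
  rw [h2]
  by_cases h : ({f i, f j, f l} : Finset V) ∈ H
  · simp [h]
  · simp [h]

/-- the five-tuple as a function -/
def tup {V : Type} (t : V × V × V × V × V) : Fin 5 → V :=
  ![t.1, t.2.1, t.2.2.1, t.2.2.2.1, t.2.2.2.2]

theorem tup_inj {V : Type} : Function.Injective (tup : V × V × V × V × V → Fin 5 → V) := by
  rintro ⟨a, b, c, d, x⟩ ⟨a', b', c', d', x'⟩ h
  have h0 := congrFun h 0
  have h1 := congrFun h 1
  have h2 := congrFun h 2
  have h3 := congrFun h 3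
  have h4 := congrFun h 4
  simp [tup] at h0 h1 h2 h3 h4
  simp [h0, h1, h2, h3, h4]

theorem sum_eq_card {V : Type} [Fintype V] (p : V → V → V → V → V → Prop)
    [inst : ∀ a b c d x, Decidable (p a b c d x)] :
    ∑ a, ∑ b, ∑ c, ∑ d, ∑ x, (if p a b c d x then 1 else 0) =
      (univ.filter fun t : V × V × V × V × V => p t.1 t.2.1 t.2.2.1 t.2.2.2.1 t.2.2.2.2).card := by
  rw [card_filter, Fintype.sum_prod_type]
  refine sum_congr rfl fun a _ => ?_
  rw [Fintype.sum_prod_type]
  refine sum_congr rfl fun b _ => ?_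
  rw [Fintype.sum_prod_type]
  refine sum_congr rfl fun c _ => ?_
  rw [Fintype.sum_prod_type]

theorem inj5 {V : Type} {a b c d x : V} (h1 : a ≠ b) (h2 : a ≠ c) (h3 : a ≠ d) (h4 : a ≠ x)
    (h5 : b ≠ c) (h6 : b ≠ d) (h7 : b ≠ x) (h8 : c ≠ d) (h9 : c ≠ x) (h10 : d ≠ x) :
    Function.Injective (![a, b, c, d, x] : Fin 5 → V) := by
  intro i j hij
  fin_cases i <;> fin_cases j <;> simp_all

/-- ordered tuples versus copies when the mask forces five distinct vertices -/
theorem tuples_le {V : Type} [Fintype V] [DecidableEq V] {H : Finset (Finset V)} (M : ℕ)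
    (hd : ∀ a b c d x : V, mk5 (ind H) a b c d x = M →
      Function.Injective (![a, b, c, d, x] : Fin 5 → V)) :
    ∑ a, ∑ b, ∑ c, ∑ d, ∑ x, (if mk5 (ind H) a b c d x = M then 1 else 0) ≤
      (univ.filter fun f : Fin 5 → V => Cop (ind H) M f).card := by
  refine (le_of_eq (sum_eq_card fun a b c d x => mk5 (ind H) a b c d x = M)).trans ?_
  refine Finset.card_le_card_of_injOn tup ?_ (tup_inj.injOn)
  intro t ht
  simp only [coe_filter, mem_univ, true_and, Set.mem_ofPred_eq] at ht ⊢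
  exact ⟨hd _ _ _ _ _ ht, ht⟩

/-- ordered tuples versus copies when the mask forces the vertices to be distinct except for the
last two -/
theorem tuples_le' {V : Type} [Fintype V] [DecidableEq V] {H : Finset (Finset V)} (M : ℕ)
    (hd : ∀ a b c d x : V, mk5 (ind H) a b c d x = M → d ≠ x →
      Function.Injective (![a, b, c, d, x] : Fin 5 → V)) :
    ∑ a, ∑ b, ∑ c, ∑ d, ∑ x, (if mk5 (ind H) a b c d x = M then 1 else 0) ≤
      (univ.filter fun f : Fin 5 → V => Cop (ind H) M f).card + Fintype.card V ^ 4 := by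
  have h1 : ∑ a : V, ∑ b : V, ∑ c : V, ∑ d : V, ∑ x : V,
      (if mk5 (ind H) a b c d x = M then 1 else 0) ≤
      ∑ a : V, ∑ b : V, ∑ c : V, ∑ d : V, ∑ x : V,
        ((if mk5 (ind H) a b c d x = M ∧ d ≠ x then 1 else 0) + (if d = x then 1 else 0)) := by
    refine sum_le_sum fun a _ => sum_le_sum fun b _ => sum_le_sum fun c _ => sum_le_sum fun d _ =>
      sum_le_sum fun x _ => ?_
    by_cases h : d = x
    · simp only [h]
      split_ifs <;> omega
    · simp only [h, not_false_eq_true, and_true, ne_eq]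
      split_ifs <;> omega
  refine h1.trans ?_
  simp only [sum_add_distrib]
  refine Nat.add_le_add ?_ ?_
  · refine (le_of_eq (sum_eq_card fun a b c d x => mk5 (ind H) a b c d x = M ∧ d ≠ x)).trans ?_
    refine Finset.card_le_card_of_injOn tup ?_ (tup_inj.injOn)
    intro t ht
    simp only [coe_filter, mem_univ, true_and, Set.mem_ofPred_eq] at ht ⊢
    exact ⟨hd _ _ _ _ _ ht.1 ht.2, ht.1⟩
  · simp
    apply le_of_eq
    ring

theorem bits4 {x0 x1 x2 x3 m : ℕ} (h0 : x0 ≤ 1) (h1 : x1 ≤ 1) (h2 : x2 ≤ 1) (h3 : x3 ≤ 1)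
    (h : x0 + 2 * (x1 + 2 * (x2 + 2 * x3)) = m) :
    x0 = m % 2 ∧ x1 = m / 2 % 2 ∧ x2 = m / 4 % 2 ∧ x3 = m / 8 % 2 := by
  omega

theorem bits6 {x0 x1 x2 x3 x4 x5 m : ℕ} (h0 : x0 ≤ 1) (h1 : x1 ≤ 1) (h2 : x2 ≤ 1) (h3 : x3 ≤ 1)
    (h4 : x4 ≤ 1) (h5 : x5 ≤ 1)
    (h : x0 + 2 * (x1 + 2 * (x2 + 2 * (x3 + 2 * (x4 + 2 * x5)))) = m) :
    x0 = m % 2 ∧ x1 = m / 2 % 2 ∧ x2 = m / 4 % 2 ∧ x3 = m / 8 % 2 ∧ x4 = m / 16 % 2 ∧
      x5 = m / 32 % 2 := by
  omega

/-- the mask of a five-tuple and its two codes -/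
theorem mk5_iff {V : Type} {e : V → V → V → ℕ} (he : Pat e) (M s t : ℕ)
    (hs : sg (pe M) 0 1 2 3 = s) (ht : ta (pe M) 0 1 2 3 4 = t)
    (hM : (s % 2) + 2 * ((s / 2 % 2) + 2 * ((s / 4 % 2) + 2 * ((s / 8 % 2) + 2 * ((t % 2) +
      2 * ((t / 2 % 2) + 2 * ((t / 8 % 2) + 2 * ((t / 4 % 2) + 2 * ((t / 16 % 2) +
      2 * (t / 32 % 2))))))))) = M) (a b c d x : V) :
    mk5 e a b c d x = M ↔ (sg e a b c d = s ∧ ta e a b c d x = t) := by
  constructor
  · intro h
    have hp := pe_tuple he ![a, b, c, d, x] M h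
    have p : ∀ i j k : Fin 5, e ((![a, b, c, d, x] : Fin 5 → V) i)
      ((![a, b, c, d, x] : Fin 5 → V) j) ((![a, b, c, d, x] : Fin 5 → V) k) =
        pe M i.val j.val k.val := hp
    have p1 := p 0 1 2
    have p2 := p 0 1 3
    have p3 := p 0 2 3
    have p4 := p 1 2 3
    have p5 := p 0 1 4
    have p6 := p 0 2 4
    have p7 := p 0 3 4
    have p8 := p 1 2 4
    have p9 := p 1 3 4
    have p10 := p 2 3 4
    change e a b c = pe M 0 1 2 at p1
    change e a b d = pe M 0 1 3 at p2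
    change e a c d = pe M 0 2 3 at p3
    change e b c d = pe M 1 2 3 at p4
    change e a b x = pe M 0 1 4 at p5
    change e a c x = pe M 0 2 4 at p6
    change e a d x = pe M 0 3 4 at p7
    change e b c x = pe M 1 2 4 at p8
    change e b d x = pe M 1 3 4 at p9
    change e c d x = pe M 2 3 4 at p10
    rw [← hs, ← ht]
    simp only [sg, ta, p1, p2, p3, p4, p5, p6, p7, p8, p9, p10, and_self]
  · rintro ⟨h1, h2⟩
    simp only [sg, ta, Nat.add_eq, Nat.mul_eq] at h1 h2
    obtain ⟨a1, a2, a3, a4⟩ := bits4 (he.le1 _ _ _) (he.le1 _ _ _) (he.le1 _ _ _)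
      (he.le1 _ _ _) h1
    obtain ⟨b1, b2, b3, b4, b5, b6⟩ := bits6 (he.le1 _ _ _) (he.le1 _ _ _) (he.le1 _ _ _)
      (he.le1 _ _ _) (he.le1 _ _ _) (he.le1 _ _ _) h2
    simp only [mk5, Nat.add_eq, Nat.mul_eq]
    rw [a1, a2, a3, a4, b1, b2, b3, b4, b5, b6]
    exact hM

theorem K4free_sg {V : Type} [DecidableEq V] {H : Finset (Finset V)} (h3 : ∀ s ∈ H, s.card = 3)
    (hK : ∀ S : Finset V, S.card = 4 → ∃ s ⊆ S, s.card = 3 ∧ s ∉ H) (a b c d : V) :
    sg (ind H) a b c d ≠ 15 := by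
  intro h
  have hp := ind_pat h3
  have l1 := hp.le1 a b c
  have l2 := hp.le1 a b d
  have l3 := hp.le1 a c d
  have l4 := hp.le1 b c d
  simp only [sg, Nat.add_eq, Nat.mul_eq] at h
  have e1 : ind H a b c = 1 := by omega
  have e2 : ind H a b d = 1 := by omega
  have e3 : ind H a c d = 1 := by omega
  have e4 : ind H b c d = 1 := by omega
  obtain ⟨n1, n2, n3⟩ := ind_distinct h3 e1
  obtain ⟨-, n4, n5⟩ := ind_distinct h3 e2
  obtain ⟨-, -, n6⟩ := ind_distinct h3 e3
  have m1 : ({a, b, c} : Finset V) ∈ H := by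
    by_contra hn; unfold ind at e1; rw [if_neg hn] at e1; omega
  have m2 : ({a, b, d} : Finset V) ∈ H := by
    by_contra hn; unfold ind at e2; rw [if_neg hn] at e2; omega
  have m3 : ({a, c, d} : Finset V) ∈ H := by
    by_contra hn; unfold ind at e3; rw [if_neg hn] at e3; omega
  have m4 : ({b, c, d} : Finset V) ∈ H := by
    by_contra hn; unfold ind at e4; rw [if_neg hn] at e4; omega
  have hc : ({a, b, c, d} : Finset V).card = 4 := by
    rw [card_insert_of_notMem, card_insert_of_notMem, card_insert_of_notMem, card_singleton]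
    · simpa using n6
    · simp [n3, n5]
    · simp [n1, n2, n4]
  obtain ⟨s, hs, hs3, hsH⟩ := hK _ hc
  -- `s` misses exactly one of the four vertices
  obtain ⟨y, hy, hyS⟩ : ∃ y, y ∈ ({a, b, c, d} : Finset V) ∧ y ∉ s := by
    by_contra hn
    push Not at hn
    have := card_le_card (show ({a, b, c, d} : Finset V) ⊆ s from fun z hz => hn z hz)
    omega
  have hsub : s ⊆ ({a, b, c, d} : Finset V).erase y := fun z hz =>
    mem_erase.mpr ⟨fun h => hyS (h ▸ hz), hs hz⟩
  have hcard : (({a, b, c, d} : Finset V).erase y).card = 3 := by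
    rw [card_erase_of_mem hy, hc]
  have hse : s = ({a, b, c, d} : Finset V).erase y :=
    eq_of_subset_of_card_le hsub (by omega)
  simp only [mem_insert, mem_singleton] at hy
  apply hsH
  rcases hy with rfl | rfl | rfl | rfl
  · rw [hse]
    convert m4 using 1
    ext z
    simp only [mem_erase, mem_insert, mem_singleton]
    constructor
    · rintro ⟨h1, h2 | h2 | h2 | h2⟩ <;> simp_all
    · rintro (h2 | h2 | h2)
      · subst h2; exact ⟨n1.symm, by simp⟩
      · subst h2; exact ⟨n2.symm, by simp⟩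
      · subst h2; exact ⟨n4.symm, by simp⟩
  · rw [hse]
    convert m3 using 1
    ext z
    simp only [mem_erase, mem_insert, mem_singleton]
    constructor
    · rintro ⟨h1, h2 | h2 | h2 | h2⟩ <;> simp_all
    · rintro (h2 | h2 | h2)
      · subst h2; exact ⟨n1, by simp⟩
      · subst h2; exact ⟨n3.symm, by simp⟩
      · subst h2; exact ⟨n5.symm, by simp⟩
  · rw [hse]
    convert m2 using 1
    ext z
    simp only [mem_erase, mem_insert, mem_singleton]
    constructor
    · rintro ⟨h1, h2 | h2 | h2 | h2⟩ <;> simp_all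
    · rintro (h2 | h2 | h2)
      · subst h2; exact ⟨n2, by simp⟩
      · subst h2; exact ⟨n3, by simp⟩
      · subst h2; exact ⟨n6.symm, by simp⟩
  · rw [hse]
    convert m1 using 1
    ext z
    simp only [mem_erase, mem_insert, mem_singleton]
    constructor
    · rintro ⟨h1, h2 | h2 | h2 | h2⟩ <;> simp_all
    · rintro (h2 | h2 | h2)
      · subst h2; exact ⟨n4, by simp⟩
      · subst h2; exact ⟨n5, by simp⟩
      · subst h2; exact ⟨n6, by simp⟩

end Pool.Agent.H449R2.Fl
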