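import Pool.Agent.H449R2.Fl.Bound

/-! From sums over ordered tuples to numbers of edges and of induced copies. -/

set_option autoImplicit false
set_option maxRecDepth 100000
open Finset

namespace Pool.Agent.H449R2.Fl

/-- membership in the 3-graph `H` as a 0/1 function -/
def ind {V : Type} [DecidableEq V] (H : Finset (Finset V)) (a b c : V) : ℕ :=
  if ({a, b, c} : Finset V) ∈ H then 1 else 0

theorem ind_pat {V : Type} [DecidableEq V] {H : Finset (Finset V)} (h3 : ∀ s ∈ H, s.card = 3) :
    Pat (ind H) := by
  refine ⟨fun a b c => ?_, fun a b c => ?_, fun a b c => ?_, fun a b => ?_⟩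
  · unfold ind; split_ifs <;> omega
  · unfold ind; rw [Finset.insert_comm]
  · unfold ind; rw [Finset.pair_comm]
  · unfold ind
    rw [if_neg]
    intro h
    have h1 := h3 _ h
    have h2 : ({a, a, b} : Finset V).card ≤ 2 := by
      rw [Finset.insert_eq_of_mem (Finset.mem_insert_self a {b})]
      exact Finset.card_le_two
    omega

theorem ind_distinct {V : Type} [DecidableEq V] {H : Finset (Finset V)}
    (h3 : ∀ s ∈ H, s.card = 3) {a b c : V} (h : ind H a b c = 1) : a ≠ b ∧ a ≠ c ∧ b ≠ c := by
  have hp := ind_pat h3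
  refine ⟨?_, ?_, ?_⟩
  · rintro rfl; rw [hp.dg] at h; omega
  · rintro rfl; rw [hp.s23, hp.dg] at h; omega
  · rintro rfl; rw [hp.s12, hp.s23, hp.dg] at h; omega

/-- the number of ordered edges is `6 |H|` -/
theorem sum_ind {V : Type} [Fintype V] [DecidableEq V] {H : Finset (Finset V)}
    (h3 : ∀ s ∈ H, s.card = 3) : ∑ a, ∑ b, ∑ c, ind H a b c = 6 * H.card := by
  have h1 : ∑ a, ∑ b, ∑ c, ind H a b c =
      ∑ s ∈ H, ∑ a : V, ∑ b : V, ∑ c : V, (if ({a, b, c} : Finset V) = s then 1 else 0) := by
    have e1 : ∀ a b c : V, ind H a b c = ∑ s ∈ H, (if ({a, b, c} : Finset V) = s then 1 else 0) := by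
      intro a b c
      rw [Finset.sum_ite_eq]
      rfl
    rw [sum_congr rfl fun a _ => sum_congr rfl fun b _ => sum_congr rfl fun c _ => e1 a b c]
    rw [sum_congr rfl fun a _ => sum_congr rfl fun b _ => sum_comm]
    rw [sum_congr rfl fun a _ => sum_comm]
    rw [sum_comm]
  rw [h1]
  have h2 : ∀ s ∈ H, ∑ a : V, ∑ b : V, ∑ c : V, (if ({a, b, c} : Finset V) = s then 1 else 0) = 6 := by
    intro s hs
    obtain ⟨x, y, z, hxy, hxz, hyz, rfl⟩ := Finset.card_eq_three.mp (h3 s hs)
    have e2 : ∀ a b c : V, (if ({a, b, c} : Finset V) = {x, y, z} then 1 else 0) =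
        (if a = x ∧ b = y ∧ c = z then 1 else 0) + (if a = x ∧ b = z ∧ c = y then 1 else 0)
        + (if a = y ∧ b = x ∧ c = z then 1 else 0) + (if a = y ∧ b = z ∧ c = x then 1 else 0)
        + (if a = z ∧ b = x ∧ c = y then 1 else 0)
        + (if a = z ∧ b = y ∧ c = x then 1 else 0) := by
      intro a b c
      by_cases h : ({a, b, c} : Finset V) = {x, y, z}
      · rw [if_pos h]
        have ha : a ∈ ({x, y, z} : Finset V) := by rw [← h]; simp
        have hb : b ∈ ({x, y, z} : Finset V) := by rw [← h]; simp
        have hc : c ∈ ({x, y, z} : Finset V) := by rw [← h]; simp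
        have hcard : ({a, b, c} : Finset V).card = 3 := by
          rw [h]; exact Finset.card_eq_three.mpr ⟨x, y, z, hxy, hxz, hyz, rfl⟩
        have hab : a ≠ b := by
          rintro rfl
          have : ({a, a, c} : Finset V).card ≤ 2 := by
            rw [Finset.insert_eq_of_mem (Finset.mem_insert_self a {c})]; exact Finset.card_le_two
          omega
        have hbc : b ≠ c := by
          rintro rfl
          have : ({a, b, b} : Finset V).card ≤ 2 := by
            rw [Finset.insert_eq_of_mem (Finset.mem_singleton_self b)]; exact Finset.card_le_two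
          omega
        have hac : a ≠ c := by
          rintro rfl
          have : ({a, b, a} : Finset V).card ≤ 2 := by
            rw [Finset.insert_eq_of_mem (show a ∈ ({b, a} : Finset V) by simp)]
            exact Finset.card_le_two
          omega
        clear h hcard
        simp only [mem_insert, mem_singleton] at ha hb hc
        rcases ha with rfl | rfl | rfl <;> rcases hb with rfl | rfl | rfl <;>
          rcases hc with rfl | rfl | rfl <;> simp_all
      · rw [if_neg h]
        rw [if_neg, if_neg, if_neg, if_neg, if_neg, if_neg]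
        all_goals
          rintro ⟨rfl, rfl, rfl⟩
          apply h
          ext w
          simp only [mem_insert, mem_singleton] <;> tauto
    rw [sum_congr rfl fun a _ => sum_congr rfl fun b _ => sum_congr rfl fun c _ => e2 a b c]
    have e3 : ∀ u v w : V, ∑ a : V, ∑ b : V, ∑ c : V, (if a = u ∧ b = v ∧ c = w then 1 else 0) = 1 := by
      intro u v w
      rw [sum_eq_single u, sum_eq_single v, sum_eq_single w]
      · simp
      · intro c _ hc; simp [hc]
      · simp
      · intro b _ hb; simp [hb]
      · simp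
      · intro a _ ha; simp [ha]
      · simp
    simp only [sum_add_distrib, e3]
  rw [sum_congr rfl h2, sum_const, smul_eq_mul, mul_comm]

theorem pe_mk5 {E : Fin 6 → Fin 6 → Fin 6 → ℕ} (hE : Pat E) (i j k : Fin 6) (hi : i ≠ 5)
    (hj : j ≠ 5) (hk : k ≠ 5) : pe (mk5 E 0 1 2 3 4) i.val j.val k.val = E i j k := by
  classical
  let F : Fin 6 → Fin 6 → Fin 6 → ℕ := fun i j k =>
    if i = 5 ∨ j = 5 ∨ k = 5 then 0 else E i j k
  have hF : Pat F := by
    refine ⟨fun a b c => ?_, fun a b c => ?_, fun a b c => ?_, fun a b => ?_⟩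
    · simp only [F]; split_ifs
      · omega
      · exact hE.le1 _ _ _
    · simp only [F]
      rw [hE.s12 a b c]
      by_cases h1 : a = 5 <;> by_cases h2 : b = 5 <;> by_cases h3 : c = 5 <;> simp [h1, h2, h3]
    · simp only [F]
      rw [hE.s23 a b c]
      by_cases h1 : a = 5 <;> by_cases h2 : b = 5 <;> by_cases h3 : c = 5 <;> simp [h1, h2, h3]
    · simp only [F]; split_ifs
      · rfl
      · exact hE.dg _ _
  have hm : mk6 F 0 1 2 3 4 5 = mk5 E 0 1 2 3 4 := by
    simp [mk6, mk5, mkL, F]
  rw [← hm, pe_mk6 hF]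
  simp [F, hi, hj, hk]

/-- five-tuples with a given mask -/
theorem pe_tuple {V : Type} {e : V → V → V → ℕ} (he : Pat e) (f : Fin 5 → V) (M : ℕ)
    (h : mk5 e (f 0) (f 1) (f 2) (f 3) (f 4) = M) (i j k : Fin 5) :
    e (f i) (f j) (f k) = pe M i.val j.val k.val := by
  let v : Fin 6 → V := fun t => if h : t.val < 5 then f ⟨t.val, h⟩ else f 0
  have hv : ∀ t : Fin 5, v t.castSucc = f t := by
    intro t
    simp [v]
  have hE := pat_comp he v
  have hM : mk5 (fun i j k => e (v i) (v j) (v k)) 0 1 2 3 4 = M := by
    rw [← h]; rfl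
  have h1 := pe_mk5 hE i.castSucc j.castSucc k.castSucc (Fin.castSucc_ne_last i)
    (Fin.castSucc_ne_last j) (Fin.castSucc_ne_last k)
  rw [hM] at h1
  simp only [hv] at h1
  rw [← h1]
  rfl

/-- `f` is an injective tuple inducing the 3-graph with mask `M` -/
def Cop {V : Type} (e : V → V → V → ℕ) (M : ℕ) (f : Fin 5 → V) : Prop :=
  Function.Injective f ∧ mk5 e (f 0) (f 1) (f 2) (f 3) (f 4) = M

open scoped Classical in
/-- the number of injective tuples with mask `M` is at most `k` times the number of their images,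
if the 3-graph with mask `M` has at most `k` automorphisms -/
theorem cop_card {V : Type} [Fintype V] [DecidableEq V] {e : V → V → V → ℕ} (he : Pat e) (M k : ℕ)
    (hA : (univ.filter fun g : Fin 5 → Fin 5 =>
      Cop (fun i j l : Fin 5 => pe M i.val j.val l.val) M g).card ≤ k) :
    (univ.filter fun f : Fin 5 → V => Cop e M f).card ≤
      k * ((univ.filter fun f : Fin 5 → V => Cop e M f).image fun f => univ.image f).card := by
  refine Finset.card_le_mul_card_image _ k ?_
  intro S hS
  rw [mem_image] at hS
  obtain ⟨f0, hf0, hS0⟩ := hS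
  rw [mem_filter] at hf0
  obtain ⟨-, hinj, hm⟩ := hf0
  refine le_trans ?_ hA
  refine Finset.card_le_card_of_injOn (fun f i => Function.invFun f0 (f i)) ?_ ?_
  · intro f hf
    simp only [coe_filter, mem_filter, mem_univ, true_and, Set.mem_ofPred_eq] at hf ⊢
    obtain ⟨⟨hfi, hfm⟩, hfS⟩ := hf
    have hr : ∀ i, f0 (Function.invFun f0 (f i)) = f i := by
      intro i
      apply Function.invFun_eq
      have : f i ∈ univ.image f := mem_image_of_mem _ (mem_univ _)
      rw [hfS, ← hS0, mem_image] at this
      obtain ⟨j, -, hj⟩ := this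
      exact ⟨j, hj⟩
    refine ⟨fun i j hij => hfi ?_, ?_⟩
    · have := congrArg f0 hij
      simp only [hr] at this
      exact this
    · have hfun : (fun i j l : Fin 5 => pe M i.val j.val l.val) =
          fun i j l => e (f0 i) (f0 j) (f0 l) := by
        funext i j l
        exact (pe_tuple he f0 M hm i j l).symm
      rw [hfun]
      change mk5 e (f0 (Function.invFun f0 (f 0))) (f0 (Function.invFun f0 (f 1)))
        (f0 (Function.invFun f0 (f 2))) (f0 (Function.invFun f0 (f 3)))
        (f0 (Function.invFun f0 (f 4))) = M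
      rw [hr, hr, hr, hr, hr]
      exact hfm
  · intro f hf f' hf' hff
    simp only [coe_filter, mem_filter, mem_univ, true_and, Set.mem_ofPred_eq] at hf hf'
    have hr : ∀ g : Fin 5 → V, univ.image g = S → ∀ i, f0 (Function.invFun f0 (g i)) = g i := by
      intro g hg i
      apply Function.invFun_eq
      have : g i ∈ univ.image g := mem_image_of_mem _ (mem_univ _)
      rw [hg, ← hS0, mem_image] at this
      obtain ⟨j, -, hj⟩ := this
      exact ⟨j, hj⟩
    funext i
    rw [← hr f hf.2 i, ← hr f' hf'.2 i]
    exact congrArg f0 (congrFun hff i)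

end Pool.Agent.H449R2.Fl
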