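import Mathlib

/-! Order-6 flag computations for 3-graphs: definitions (kernel-reducible). -/

set_option autoImplicit false

namespace Pool.Agent.H449R2.Fl

section sel
variable {α : Type}

/-- sum over the two orderings -/
def sel2 (f : α → α → ℕ) (x y : α) : ℕ := Nat.add (f x y) (f y x)
/-- sum over the orderings of three elements -/
def sel3 (f : α → α → α → ℕ) (x y z : α) : ℕ :=
  Nat.add (sel2 (f x) y z) (Nat.add (sel2 (f y) x z) (sel2 (f z) x y))
/-- sum over the orderings of four elements -/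
def sel4 (f : α → α → α → α → ℕ) (x y z u : α) : ℕ :=
  Nat.add (sel3 (f x) y z u) (Nat.add (sel3 (f y) x z u)
    (Nat.add (sel3 (f z) x y u) (sel3 (f u) x y z)))
/-- sum over the orderings of five elements -/
def sel5 (f : α → α → α → α → α → ℕ) (x y z u v : α) : ℕ :=
  Nat.add (sel4 (f x) y z u v) (Nat.add (sel4 (f y) x z u v)
    (Nat.add (sel4 (f z) x y u v) (Nat.add (sel4 (f u) x y z v) (sel4 (f v) x y z u))))
/-- sum over the orderings of six elements -/
def sel6 (f : α → α → α → α → α → α → ℕ) (x y z u v w : α) : ℕ :=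
  Nat.add (sel5 (f x) y z u v w) (Nat.add (sel5 (f y) x z u v w)
    (Nat.add (sel5 (f z) x y u v w) (Nat.add (sel5 (f u) x y z v w)
      (Nat.add (sel5 (f v) x y z u w) (sel5 (f w) x y z u v)))))
end sel

section pat
variable {V : Type}

/-- `e` is the 0/1 indicator of the edge set of a 3-graph on `V`. -/
structure Pat (e : V → V → V → ℕ) : Prop where
  le1 : ∀ a b c, e a b c ≤ 1
  s12 : ∀ a b c, e a b c = e b a c
  s23 : ∀ a b c, e a b c = e a c b
  dg : ∀ a b, e a a b = 0

variable (e : V → V → V → ℕ)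

/-- code of the 3-graph induced on four vertices -/
def sg (a b c d : V) : ℕ :=
  Nat.add (e a b c) (Nat.mul 2 (Nat.add (e a b d) (Nat.mul 2 (Nat.add (e a c d)
    (Nat.mul 2 (e b c d))))))
/-- code of the link of `x` on four vertices -/
def ta (a b c d x : V) : ℕ :=
  Nat.add (e a b x) (Nat.mul 2 (Nat.add (e a c x) (Nat.mul 2 (Nat.add (e a d x)
    (Nat.mul 2 (Nat.add (e b c x) (Nat.mul 2 (Nat.add (e b d x) (Nat.mul 2 (e c d x))))))))))
/-- the local functional of a certificate `(T, q)` -/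
def phi (T : ℕ → ℕ → ℕ → ℕ) (q : ℕ → ℕ → ℕ) (a b c d x y : V) : ℕ :=
  Nat.add (T (sg e a b c d) (ta e a b c d x) (ta e a b c d y)) (q (sg e a b c d) (sg e a b x y))
end pat

/-- table of the positions of the triples `i j k` (colexicographic; 31 for degenerate triples) -/
def IX : ℕ := 0xffffffffff9ca30fcfef737f27fd8bfc5ccfabf06ad5fffe728c3fffffff9ffe941e5f4fcc58fd06f921f3949ffcfef7367ffa507fffffffde9ffc62723e3f85a7f883ffc9ff62e5f4fcc57a7ff18bfffffff6187ff816517c1ffc5ccfaa3f41be4723e3f85861ffe0fffffffd44083fffc1ab57e1f3949f69fe20fd6517c1f51020ffffffffff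
/-- position of the triple `i j k` -/
def ix (i j k : ℕ) : ℕ :=
  Nat.land (Nat.shiftRight IX (Nat.mul 5 (Nat.add (Nat.mul 6 (Nat.add (Nat.mul 6 i) j)) k))) 31
/-- the 3-graph on `0, ..., 5` with the mask `m` -/
def pe (m i j k : ℕ) : ℕ := Nat.land (Nat.shiftRight m (ix i j k)) 1

end Pool.Agent.H449R2.Fl
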