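import Pool.Agent.H449R2.Fl.Copies

/-! Five-vertex sets by the number of edges they span. -/

set_option autoImplicit false
set_option maxRecDepth 100000
open Finset
open scoped Classical

namespace Pool.Agent.H449R2.Fl

/-- number of edges on five vertices -/
def ed5 {V : Type} (e : V → V → V → ℕ) (a b c d x : V) : ℕ :=
  Nat.add (e a b c) (Nat.add (e a b d) (Nat.add (e a c d) (Nat.add (e b c d) (Nat.add (e a b x)
    (Nat.add (e a c x) (Nat.add (e a d x) (Nat.add (e b c x) (Nat.add (e b d x) (e c d x)))))))))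

/-- check of the weight of one mask -/
def ckW (pen : ℕ → ℕ → ℕ) (X Y M : ℕ) : Bool :=
  Nat.ble (sel5 (fun a b c d x => pen (sg (pe M) a b c d) (ta (pe M) a b c d x)) 0 1 2 3 4)
    (cond (Nat.beq (ed5 (pe M) 0 1 2 3 4) 8) X (cond (Nat.beq (ed5 (pe M) 0 1 2 3 4) 10) Y 0))

theorem sel5_pen {V : Type} {e : V → V → V → ℕ} (he : Pat e) (pen : ℕ → ℕ → ℕ) (X Y : ℕ)
    (hck : ∀ M < 1024, ckW pen X Y M = true) (a b c d x : V) :
    sel5 (fun a b c d x => pen (sg e a b c d) (ta e a b c d x)) a b c d x ≤
      (if ed5 e a b c d x = 8 then X else 0) + (if ed5 e a b c d x = 10 then Y else 0) := by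
  set f : Fin 5 → V := ![a, b, c, d, x] with hf
  set M := mk5 e a b c d x with hM
  have hlt : M < 1024 := mk5_lt e he.le1 _ _ _ _ _
  have hp := pe_tuple he f M rfl
  have hE : (fun i j k : Fin 5 => e (f i) (f j) (f k)) =
      fun i j k : Fin 5 => pe M i.val j.val k.val := by
    funext i j k; exact hp i j k
  have h1 : sel5 (fun a b c d x => pen (sg e a b c d) (ta e a b c d x)) a b c d x =
      sel5 (fun a b c d x => pen (sg (fun i j k : Fin 5 => e (f i) (f j) (f k)) a b c d)
        (ta (fun i j k : Fin 5 => e (f i) (f j) (f k)) a b c d x)) 0 1 2 3 4 := rfl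
  have h2 : ed5 e a b c d x = ed5 (fun i j k : Fin 5 => e (f i) (f j) (f k)) 0 1 2 3 4 := rfl
  rw [hE] at h1 h2
  have h3 : sel5 (fun a b c d x => pen (sg (fun i j k : Fin 5 => pe M i.val j.val k.val) a b c d)
        (ta (fun i j k : Fin 5 => pe M i.val j.val k.val) a b c d x)) 0 1 2 3 4 =
      sel5 (fun a b c d x => pen (sg (pe M) a b c d) (ta (pe M) a b c d x)) 0 1 2 3 4 := rfl
  have h4 : ed5 (fun i j k : Fin 5 => pe M i.val j.val k.val) 0 1 2 3 4 =
      ed5 (pe M) 0 1 2 3 4 := rfl
  rw [h3] at h1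
  rw [h4] at h2
  rw [h1, h2]
  refine (Nat.le_of_ble_eq_true (hck M hlt)).trans ?_
  by_cases h8 : ed5 (pe M) 0 1 2 3 4 = 8
  · rw [h8]
    simp
  · by_cases h10 : ed5 (pe M) 0 1 2 3 4 = 10
    · rw [h10]
      simp only [show Nat.beq 10 8 = false from rfl, show Nat.beq 10 10 = true from rfl,
        cond_false, cond_true]
      simp
    · have b8 : Nat.beq (ed5 (pe M) 0 1 2 3 4) 8 = false :=
        Bool.eq_false_iff.mpr fun h => h8 (Nat.eq_of_beq_eq_true h)
      have b10 : Nat.beq (ed5 (pe M) 0 1 2 3 4) 10 = false :=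
        Bool.eq_false_iff.mpr fun h => h10 (Nat.eq_of_beq_eq_true h)
      rw [b8, b10]
      simp

theorem z2 {V : Type} {e : V → V → V → ℕ} (he : Pat e) (a b : V) : e a b a = 0 := by
  rw [he.s23, he.dg]
theorem z3 {V : Type} {e : V → V → V → ℕ} (he : Pat e) (a b : V) : e b a a = 0 := by
  rw [he.s12, he.s23, he.dg]

/-- five vertices spanning at least eight edges are distinct -/
theorem ed5_inj {V : Type} {e : V → V → V → ℕ} (he : Pat e) {a b c d x : V}
    (h : 8 ≤ ed5 e a b c d x) : Function.Injective (![a, b, c, d, x] : Fin 5 → V) := by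
  have l1 := he.le1 a b c
  have l2 := he.le1 a b d
  have l3 := he.le1 a c d
  have l4 := he.le1 b c d
  have l5 := he.le1 a b x
  have l6 := he.le1 a c x
  have l7 := he.le1 a d x
  have l8 := he.le1 b c x
  have l9 := he.le1 b d x
  have l10 := he.le1 c d x
  simp only [ed5, Nat.add_eq] at h
  refine inj5 ?_ ?_ ?_ ?_ ?_ ?_ ?_ ?_ ?_ ?_ <;> rintro rfl
  · have := he.dg a c; have := he.dg a d; have := he.dg a x; omega
  · have := z2 he a b; have := he.dg a d; have := he.dg a x; omega
  · have := z2 he a b; have := z2 he a c; have := he.dg a x; omega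
  · have := z2 he a b; have := z2 he a c; have := z2 he a d; omega
  · have := z3 he b a; have := he.dg b d; have := he.dg b x; omega
  · have := z3 he b a; have := z2 he b c; have := he.dg b x; omega
  · have := z3 he b a; have := z2 he b c; have := z2 he b d; omega
  · have := z3 he c a; have := z3 he c b; have := he.dg c x; omega
  · have := z3 he c a; have := z3 he c b; have := z2 he c d; omega
  · have := z3 he d a; have := z3 he d b; have := z3 he d c; omega

/-- number of edges inside the image of an injective five-tuple -/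
theorem card_sub {V : Type} [DecidableEq V] {H : Finset (Finset V)}
    (h3 : ∀ s ∈ H, s.card = 3) (f : Fin 5 → V) (hf : Function.Injective f) :
    (H.filter fun t => t ⊆ univ.image f).card = ed5 (ind H) (f 0) (f 1) (f 2) (f 3) (f 4) := by
  have h1 : (H.filter fun t => t ⊆ univ.image f) =
      (powersetCard 3 (univ.map ⟨f, hf⟩)).filter fun t => t ∈ H := by
    ext t
    simp only [mem_filter, mem_powersetCard]
    rw [map_eq_image]
    constructor
    · rintro ⟨h, h'⟩; exact ⟨⟨h', h3 t h⟩, h⟩
    · rintro ⟨⟨h, _⟩, h'⟩; exact ⟨h', h⟩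
  have h2 : (powersetCard 3 (univ : Finset (Fin 5))) =
      {{0, 1, 2}, {0, 1, 3}, {0, 2, 3}, {1, 2, 3}, {0, 1, 4}, {0, 2, 4}, {0, 3, 4}, {1, 2, 4},
        {1, 3, 4}, {2, 3, 4}} := by decide
  rw [h1, card_filter, powersetCard_map, sum_map, h2]
  rw [sum_insert (by decide), sum_insert (by decide), sum_insert (by decide),
    sum_insert (by decide), sum_insert (by decide), sum_insert (by decide),
    sum_insert (by decide), sum_insert (by decide), sum_insert (by decide), sum_singleton]
  simp only [ed5, ind, Nat.add_eq, RelEmbedding.coe_toEmbedding, mapEmbedding_apply, map_insert,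
    map_singleton, Function.Embedding.coeFn_mk]

/-- the number of five-vertex sets spanning exactly `k` edges -/
def N5 {V : Type} [Fintype V] [DecidableEq V] (H : Finset (Finset V)) (k : ℕ) : ℕ :=
  (univ.filter fun S : Finset V => S.card = 5 ∧ (H.filter fun t => t ⊆ S).card = k).card

theorem card_inj5 : (univ.filter fun g : Fin 5 → Fin 5 => Function.Injective g).card = 120 := by
  rw [← Fintype.card_subtype, Fintype.card_congr (Equiv.subtypeInjectiveEquivEmbedding _ _),
    Fintype.card_embedding_eq]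
  simp [Nat.descFactorial]

theorem tuples5 {V : Type} [Fintype V] [DecidableEq V] {H : Finset (Finset V)}
    (h3 : ∀ s ∈ H, s.card = 3) (k : ℕ) (hk : 8 ≤ k) :
    ∑ a, ∑ b, ∑ c, ∑ d, ∑ x, (if ed5 (ind H) a b c d x = k then 1 else 0) ≤ 120 * N5 H k := by
  refine (le_of_eq (sum_eq_card fun a b c d x => ed5 (ind H) a b c d x = k)).trans ?_
  let F := univ.filter fun f : Fin 5 → V => Function.Injective f ∧
    ed5 (ind H) (f 0) (f 1) (f 2) (f 3) (f 4) = k
  have h1 : (univ.filter fun t : V × V × V × V × V =>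
      ed5 (ind H) t.1 t.2.1 t.2.2.1 t.2.2.2.1 t.2.2.2.2 = k).card ≤ F.card := by
    refine Finset.card_le_card_of_injOn tup ?_ (tup_inj.injOn)
    intro t ht
    simp only [F, coe_filter, mem_univ, true_and, Set.mem_ofPred_eq] at ht ⊢
    exact ⟨ed5_inj (ind_pat h3) (by rw [ht]; exact hk), ht⟩
  have h2 : F.card ≤ 120 * (F.image fun f => univ.image f).card := by
    refine Finset.card_le_mul_card_image _ 120 ?_
    intro S hS
    rw [mem_image] at hS
    obtain ⟨f0, hf0, hS0⟩ := hS
    refine le_trans ?_ card_inj5.le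
    refine Finset.card_le_card_of_injOn (fun f i => Function.invFun f0 (f i)) ?_ ?_
    · intro f hf
      simp only [F, coe_filter, mem_filter, mem_univ, true_and, Set.mem_ofPred_eq] at hf ⊢
      obtain ⟨⟨hfi, hfm⟩, hfS⟩ := hf
      have hr : ∀ i, f0 (Function.invFun f0 (f i)) = f i := by
        intro i
        apply Function.invFun_eq
        have : f i ∈ univ.image f := mem_image_of_mem _ (mem_univ _)
        rw [hfS, ← hS0, mem_image] at this
        obtain ⟨j, -, hj⟩ := this
        exact ⟨j, hj⟩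
      intro i j hij
      apply hfi
      have := congrArg f0 hij
      simp only [hr] at this
      exact this
    · intro f hf f' hf' hff
      simp only [F, coe_filter, mem_filter, mem_univ, true_and, Set.mem_ofPred_eq] at hf hf'
      have hr : ∀ g : Fin 5 → V, univ.image g = S → ∀ i, f0 (Function.invFun f0 (g i)) = g i := by
        intro g hg i
        apply Function.invFun_eq
        have : g i ∈ univ.image g := mem_image_of_mem _ (mem_univ _)
        rw [hg, ← hS0, mem_image] at this
        obtain ⟨j, -, hj⟩ := this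
        exact ⟨j, hj⟩
      funext i
      rw [← hr f hf.2 i, ← hr f' hf'.2 i]
      exact congrArg f0 (congrFun hff i)
  refine h1.trans (h2.trans (Nat.mul_le_mul_left 120 (card_le_card ?_)))
  intro S hS
  rw [mem_image] at hS
  obtain ⟨f, hf, rfl⟩ := hS
  rw [mem_filter] at hf
  rw [mem_filter]
  refine ⟨mem_univ _, ?_, ?_⟩
  · rw [card_image_of_injective _ hf.2.1, card_univ, Fintype.card_fin]
  · rw [card_sub h3 f hf.2.1]
    exact hf.2.2

/-- the total of a weight that detects the five-vertex sets with eight and with ten edges -/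
theorem pen_total {V : Type} [Fintype V] [DecidableEq V] {H : Finset (Finset V)}
    (h3 : ∀ s ∈ H, s.card = 3) (pen : ℕ → ℕ → ℕ) (X Y : ℕ)
    (hck : ∀ M < 1024, ckW pen X Y M = true) :
    ∑ a, ∑ b, ∑ c, ∑ d, ∑ x, pen (sg (ind H) a b c d) (ta (ind H) a b c d x) ≤
      X * N5 H 8 + Y * N5 H 10 := by
  have h1 := tot5 (fun a b c d x => pen (sg (ind H) a b c d) (ta (ind H) a b c d x))
  have h2 : ∑ a, ∑ b, ∑ c, ∑ d, ∑ x, sel5 (fun a b c d x =>
      pen (sg (ind H) a b c d) (ta (ind H) a b c d x)) a b c d x ≤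
      ∑ a, ∑ b, ∑ c, ∑ d, ∑ x, (X * (if ed5 (ind H) a b c d x = 8 then 1 else 0) +
        Y * (if ed5 (ind H) a b c d x = 10 then 1 else 0)) := by
    refine sum_le_sum fun a _ => sum_le_sum fun b _ => sum_le_sum fun c _ => sum_le_sum fun d _ =>
      sum_le_sum fun x _ => ?_
    refine (sel5_pen (ind_pat h3) pen X Y hck a b c d x).trans (le_of_eq ?_)
    simp only [mul_ite, mul_one, mul_zero]
  have h4 := tuples5 h3 8 le_rfl
  have h5 := tuples5 h3 10 (by norm_num)
  simp only [sum_add_distrib, ← mul_sum] at h2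
  have h6 := Nat.mul_le_mul_left X h4
  have h7 := Nat.mul_le_mul_left Y h5
  rw [h1] at h2
  have h8 : 120 * ∑ a, ∑ b, ∑ c, ∑ d, ∑ x, pen (sg (ind H) a b c d) (ta (ind H) a b c d x) ≤
      120 * (X * N5 H 8 + Y * N5 H 10) := by
    calc _ ≤ _ := h2
      _ ≤ X * (120 * N5 H 8) + Y * (120 * N5 H 10) := Nat.add_le_add h6 h7
      _ = _ := by ring
  exact Nat.le_of_mul_le_mul_left h8 (by norm_num)

end Pool.Agent.H449R2.Fl
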