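import Pool.Agent.H449R2.Fl.IsoTab

/-! Kernel checks of the isomorphism tables. -/

set_option autoImplicit false
set_option maxRecDepth 100000

namespace Pool.Agent.H449R2.Fl

theorem ckp_all : nall 720 ckp = true := by decide +kernel
theorem ck1_all : nall 1024 ck1 = true := by decide +kernel
theorem ck2_0 : nall 1024 (ck2 0) = true := by decide +kernel
theorem ck2_1 : nall 1024 (ck2 1) = true := by decide +kernel
theorem ck2_2 : nall 1024 (ck2 2) = true := by decide +kernel
theorem ck2_3 : nall 1024 (ck2 3) = true := by decide +kernel
theorem ck2_4 : nall 1024 (ck2 4) = true := by decide +kernel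
theorem ck2_5 : nall 1024 (ck2 5) = true := by decide +kernel
theorem ck2_6 : nall 1024 (ck2 6) = true := by decide +kernel
theorem ck2_7 : nall 1024 (ck2 7) = true := by decide +kernel
theorem ck2_8 : nall 1024 (ck2 8) = true := by decide +kernel
theorem ck2_9 : nall 1024 (ck2 9) = true := by decide +kernel
theorem ck2_10 : nall 1024 (ck2 10) = true := by decide +kernel
theorem ck2_11 : nall 1024 (ck2 11) = true := by decide +kernel
theorem ck2_12 : nall 1024 (ck2 12) = true := by decide +kernel
theorem ck2_13 : nall 1024 (ck2 13) = true := by decide +kernel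
theorem ck2_14 : nall 1024 (ck2 14) = true := by decide +kernel
theorem ck2_15 : nall 1024 (ck2 15) = true := by decide +kernel
theorem ck2_16 : nall 1024 (ck2 16) = true := by decide +kernel
theorem ck2_17 : nall 1024 (ck2 17) = true := by decide +kernel
theorem ck2_18 : nall 1024 (ck2 18) = true := by decide +kernel
theorem ck2_19 : nall 1024 (ck2 19) = true := by decide +kernel
theorem ck2_20 : nall 1024 (ck2 20) = true := by decide +kernel
theorem ck2_21 : nall 1024 (ck2 21) = true := by decide +kernel
theorem ck2_22 : nall 1024 (ck2 22) = true := by decide +kernel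
theorem ck2_23 : nall 1024 (ck2 23) = true := by decide +kernel
theorem ck2_24 : nall 1024 (ck2 24) = true := by decide +kernel
theorem ck2_25 : nall 1024 (ck2 25) = true := by decide +kernel
theorem ck2_26 : nall 1024 (ck2 26) = true := by decide +kernel
theorem ck2_27 : nall 1024 (ck2 27) = true := by decide +kernel
theorem ck2_28 : nall 1024 (ck2 28) = true := by decide +kernel
theorem ck2_29 : nall 1024 (ck2 29) = true := by decide +kernel
theorem ck2_30 : nall 1024 (ck2 30) = true := by decide +kernel
theorem ck2_31 : nall 1024 (ck2 31) = true := by decide +kernel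
theorem ck2_32 : nall 1024 (ck2 32) = true := by decide +kernel
theorem ck2_33 : nall 1024 (ck2 33) = true := by decide +kernel

end Pool.Agent.H449R2.Fl
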