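import Pool.Agent.H449R2.Fl.Defs

/-! Symmetry and totals of the sums over orderings. -/

set_option autoImplicit false
open Finset

namespace Pool.Agent.H449R2.Fl

section sym
variable {α : Type}

theorem sel2_s1 (f : α → α → ℕ) (x y : α) : sel2 f y x = sel2 f x y := by
  simp only [sel2, Nat.add_eq]; omega

theorem sel3_s1 (f : α → α → α → ℕ) (x y z : α) : sel3 f y x z = sel3 f x y z := by
  simp only [sel3, Nat.add_eq]; rw [sel2_s1 (f z) x y]; omega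
theorem sel3_s2 (f : α → α → α → ℕ) (x y z : α) : sel3 f x z y = sel3 f x y z := by
  simp only [sel3, Nat.add_eq]; rw [sel2_s1 (f x) y z]; omega

theorem sel4_s1 (f : α → α → α → α → ℕ) (x y z u : α) : sel4 f y x z u = sel4 f x y z u := by
  simp only [sel4, Nat.add_eq]; rw [sel3_s1 (f z) x y u, sel3_s1 (f u) x y z]; omega
theorem sel4_s2 (f : α → α → α → α → ℕ) (x y z u : α) : sel4 f x z y u = sel4 f x y z u := by
  simp only [sel4, Nat.add_eq]; rw [sel3_s1 (f x) y z u, sel3_s2 (f u) x y z]; omega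
theorem sel4_s3 (f : α → α → α → α → ℕ) (x y z u : α) : sel4 f x y u z = sel4 f x y z u := by
  simp only [sel4, Nat.add_eq]; rw [sel3_s2 (f x) y z u, sel3_s2 (f y) x z u]; omega

theorem sel5_s1 (f : α → α → α → α → α → ℕ) (x y z u v : α) :
    sel5 f y x z u v = sel5 f x y z u v := by
  simp only [sel5, Nat.add_eq]
  rw [sel4_s1 (f z) x y u v, sel4_s1 (f u) x y z v, sel4_s1 (f v) x y z u]; omega
theorem sel5_s2 (f : α → α → α → α → α → ℕ) (x y z u v : α) :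
    sel5 f x z y u v = sel5 f x y z u v := by
  simp only [sel5, Nat.add_eq]
  rw [sel4_s1 (f x) y z u v, sel4_s2 (f u) x y z v, sel4_s2 (f v) x y z u]; omega
theorem sel5_s3 (f : α → α → α → α → α → ℕ) (x y z u v : α) :
    sel5 f x y u z v = sel5 f x y z u v := by
  simp only [sel5, Nat.add_eq]
  rw [sel4_s2 (f x) y z u v, sel4_s2 (f y) x z u v, sel4_s3 (f v) x y z u]; omega
theorem sel5_s4 (f : α → α → α → α → α → ℕ) (x y z u v : α) :
    sel5 f x y z v u = sel5 f x y z u v := by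
  simp only [sel5, Nat.add_eq]
  rw [sel4_s3 (f x) y z u v, sel4_s3 (f y) x z u v, sel4_s3 (f z) x y u v]; omega

theorem sel6_s1 (f : α → α → α → α → α → α → ℕ) (x y z u v w : α) :
    sel6 f y x z u v w = sel6 f x y z u v w := by
  simp only [sel6, Nat.add_eq]
  rw [sel5_s1 (f z) x y u v w, sel5_s1 (f u) x y z v w, sel5_s1 (f v) x y z u w,
    sel5_s1 (f w) x y z u v]; omega
theorem sel6_s2 (f : α → α → α → α → α → α → ℕ) (x y z u v w : α) :
    sel6 f x z y u v w = sel6 f x y z u v w := by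
  simp only [sel6, Nat.add_eq]
  rw [sel5_s1 (f x) y z u v w, sel5_s2 (f u) x y z v w, sel5_s2 (f v) x y z u w,
    sel5_s2 (f w) x y z u v]; omega
theorem sel6_s3 (f : α → α → α → α → α → α → ℕ) (x y z u v w : α) :
    sel6 f x y u z v w = sel6 f x y z u v w := by
  simp only [sel6, Nat.add_eq]
  rw [sel5_s2 (f x) y z u v w, sel5_s2 (f y) x z u v w, sel5_s3 (f v) x y z u w,
    sel5_s3 (f w) x y z u v]; omega
theorem sel6_s4 (f : α → α → α → α → α → α → ℕ) (x y z u v w : α) :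
    sel6 f x y z v u w = sel6 f x y z u v w := by
  simp only [sel6, Nat.add_eq]
  rw [sel5_s3 (f x) y z u v w, sel5_s3 (f y) x z u v w, sel5_s3 (f z) x y u v w,
    sel5_s4 (f w) x y z u v]; omega
theorem sel6_s5 (f : α → α → α → α → α → α → ℕ) (x y z u v w : α) :
    sel6 f x y z u w v = sel6 f x y z u v w := by
  simp only [sel6, Nat.add_eq]
  rw [sel5_s4 (f x) y z u v w, sel5_s4 (f y) x z u v w, sel5_s4 (f z) x y u v w,
    sel5_s4 (f u) x y z v w]; omega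

/-- the sum over orderings as a function of a list of length six -/
def selL (f : α → α → α → α → α → α → ℕ) : List α → ℕ
  | [x, y, z, u, v, w] => sel6 f x y z u v w
  | _ => 0

theorem selL_swap (f : α → α → α → α → α → α → ℕ) (x y : α) (p l : List α) :
    selL f (p ++ y :: x :: l) = selL f (p ++ x :: y :: l) := by
  rcases p with _ | ⟨p0, _ | ⟨p1, _ | ⟨p2, _ | ⟨p3, _ | ⟨p4, p⟩⟩⟩⟩⟩
  · rcases l with _ | ⟨l0, _ | ⟨l1, _ | ⟨l2, _ | ⟨l3, _ | ⟨l4, l⟩⟩⟩⟩⟩ <;> try rfl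
    exact sel6_s1 f x y l0 l1 l2 l3
  · rcases l with _ | ⟨l0, _ | ⟨l1, _ | ⟨l2, _ | ⟨l3, l⟩⟩⟩⟩ <;> try rfl
    exact sel6_s2 f p0 x y l0 l1 l2
  · rcases l with _ | ⟨l0, _ | ⟨l1, _ | ⟨l2, l⟩⟩⟩ <;> try rfl
    exact sel6_s3 f p0 p1 x y l0 l1
  · rcases l with _ | ⟨l0, _ | ⟨l1, l⟩⟩ <;> try rfl
    exact sel6_s4 f p0 p1 p2 x y l0
  · rcases l with _ | ⟨l0, l⟩ <;> try rfl
    exact sel6_s5 f p0 p1 p2 p3 x y
  · rcases p with _ | ⟨p5, p⟩
    · rcases l with _ | ⟨l0, l⟩ <;> rfl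
    · rcases p with _ | ⟨p6, p⟩ <;> rfl

theorem selL_perm_aux (f : α → α → α → α → α → α → ℕ) {l l' : List α} (h : l.Perm l') :
    ∀ p : List α, selL f (p ++ l) = selL f (p ++ l') := by
  induction h with
  | nil => intro p; rfl
  | cons x h ih =>
    intro p
    have := ih (p ++ [x])
    simpa only [List.append_assoc, List.cons_append, List.nil_append] using this
  | swap x y l => intro p; exact selL_swap f x y p l
  | trans _ _ ih1 ih2 => intro p; exact (ih1 p).trans (ih2 p)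

theorem selL_perm (f : α → α → α → α → α → α → ℕ) {l l' : List α} (h : l.Perm l') :
    selL f l = selL f l' := selL_perm_aux f h []

theorem sel6_perm (f : α → α → α → α → α → α → ℕ) (v : Fin 6 → α) (π : Fin 6 → Fin 6)
    (h : [π 0, π 1, π 2, π 3, π 4, π 5].Perm [0, 1, 2, 3, 4, 5]) :
    sel6 f (v (π 0)) (v (π 1)) (v (π 2)) (v (π 3)) (v (π 4)) (v (π 5)) =
      sel6 f (v 0) (v 1) (v 2) (v 3) (v 4) (v 5) :=
  selL_perm f (h.map v)

end sym

section tot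
variable {V : Type} [Fintype V]

theorem c2 (G : V → V → ℕ) : ∑ x, ∑ w, G w x = ∑ w, ∑ x, G w x := sum_comm
theorem c3 (G : V → V → V → ℕ) : ∑ x, ∑ y, ∑ w, G w x y = ∑ w, ∑ x, ∑ y, G w x y :=
  (sum_congr rfl fun x _ => c2 fun w y => G w x y).trans sum_comm
theorem c4 (G : V → V → V → V → ℕ) :
    ∑ x, ∑ y, ∑ z, ∑ w, G w x y z = ∑ w, ∑ x, ∑ y, ∑ z, G w x y z :=
  (sum_congr rfl fun x _ => c3 fun w y z => G w x y z).trans sum_comm
theorem c5 (G : V → V → V → V → V → ℕ) :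
    ∑ x, ∑ y, ∑ z, ∑ u, ∑ w, G w x y z u = ∑ w, ∑ x, ∑ y, ∑ z, ∑ u, G w x y z u :=
  (sum_congr rfl fun x _ => c4 fun w y z u => G w x y z u).trans sum_comm
theorem c6 (G : V → V → V → V → V → V → ℕ) :
    ∑ x, ∑ y, ∑ z, ∑ u, ∑ v, ∑ w, G w x y z u v = ∑ w, ∑ x, ∑ y, ∑ z, ∑ u, ∑ v, G w x y z u v :=
  (sum_congr rfl fun x _ => c5 fun w y z u v => G w x y z u v).trans sum_comm

theorem tot2 (f : V → V → ℕ) : ∑ x, ∑ y, sel2 f x y = 2 * ∑ x, ∑ y, f x y := by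
  simp only [sel2, Nat.add_eq, sum_add_distrib]
  rw [c2 f]; ring

theorem tot3 (f : V → V → V → ℕ) : ∑ x, ∑ y, ∑ z, sel3 f x y z = 6 * ∑ x, ∑ y, ∑ z, f x y z := by
  simp only [sel3, Nat.add_eq, sum_add_distrib]
  rw [c2 fun w x => ∑ z, sel2 (f w) x z, c3 fun w x y => sel2 (f w) x y]
  simp only [tot2, ← mul_sum]; ring

theorem tot4 (f : V → V → V → V → ℕ) :
    ∑ x, ∑ y, ∑ z, ∑ u, sel4 f x y z u = 24 * ∑ x, ∑ y, ∑ z, ∑ u, f x y z u := by
  simp only [sel4, Nat.add_eq, sum_add_distrib]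
  rw [c2 fun w x => ∑ z, ∑ u, sel3 (f w) x z u, c3 fun w x y => ∑ u, sel3 (f w) x y u,
    c4 fun w x y z => sel3 (f w) x y z]
  simp only [tot3, ← mul_sum]; ring

theorem tot5 (f : V → V → V → V → V → ℕ) :
    ∑ x, ∑ y, ∑ z, ∑ u, ∑ v, sel5 f x y z u v = 120 * ∑ x, ∑ y, ∑ z, ∑ u, ∑ v, f x y z u v := by
  simp only [sel5, Nat.add_eq, sum_add_distrib]
  rw [c2 fun w x => ∑ z, ∑ u, ∑ v, sel4 (f w) x z u v, c3 fun w x y => ∑ u, ∑ v, sel4 (f w) x y u v,
    c4 fun w x y z => ∑ v, sel4 (f w) x y z v, c5 fun w x y z u => sel4 (f w) x y z u]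
  simp only [tot4, ← mul_sum]; ring

theorem tot6 (f : V → V → V → V → V → V → ℕ) :
    ∑ x, ∑ y, ∑ z, ∑ u, ∑ v, ∑ w, sel6 f x y z u v w =
      720 * ∑ x, ∑ y, ∑ z, ∑ u, ∑ v, ∑ w, f x y z u v w := by
  simp only [sel6, Nat.add_eq, sum_add_distrib]
  rw [c2 fun t x => ∑ z, ∑ u, ∑ v, ∑ w, sel5 (f t) x z u v w,
    c3 fun t x y => ∑ u, ∑ v, ∑ w, sel5 (f t) x y u v w,
    c4 fun t x y z => ∑ v, ∑ w, sel5 (f t) x y z v w,
    c5 fun t x y z u => ∑ w, sel5 (f t) x y z u w, c6 fun t x y z u v => sel5 (f t) x y z u v]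
  simp only [tot5, ← mul_sum]; ring

end tot

end Pool.Agent.H449R2.Fl
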