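import Pool.Agent.H449R2.Fl.W5Tab

/-! Kernel checks (generated). -/

set_option autoImplicit false
set_option maxRecDepth 100000

namespace Pool.Agent.H449R2.Fl.W5

theorem s8 : nall 89 (fun k => ckS nobad T q B (Nat.add 712 k)) = true := by decide +kernel
theorem s9 : nall 89 (fun k => ckS nobad T q B (Nat.add 801 k)) = true := by decide +kernel
theorem s10 : nall 89 (fun k => ckS nobad T q B (Nat.add 890 k)) = true := by decide +kernel
theorem s11 : nall 89 (fun k => ckS nobad T q B (Nat.add 979 k)) = true := by decide +kernel
theorem s12 : nall 89 (fun k => ckS nobad T q B (Nat.add 1068 k)) = true := by decide +kernel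
theorem s13 : nall 89 (fun k => ckS nobad T q B (Nat.add 1157 k)) = true := by decide +kernel
theorem s14 : nall 89 (fun k => ckS nobad T q B (Nat.add 1246 k)) = true := by decide +kernel
theorem s15 : nall 89 (fun k => ckS nobad T q B (Nat.add 1335 k)) = true := by decide +kernel

end Pool.Agent.H449R2.Fl.W5
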