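import Pool.Agent.H449R2.Fl.W5Tab

/-! Kernel checks (generated). -/

set_option autoImplicit false
set_option maxRecDepth 100000

namespace Pool.Agent.H449R2.Fl.W5

theorem s16 : nall 89 (fun k => ckS nobad T q B (Nat.add 1424 k)) = true := by decide +kernel
theorem s17 : nall 89 (fun k => ckS nobad T q B (Nat.add 1513 k)) = true := by decide +kernel
theorem s18 : nall 89 (fun k => ckS nobad T q B (Nat.add 1602 k)) = true := by decide +kernel
theorem s19 : nall 89 (fun k => ckS nobad T q B (Nat.add 1691 k)) = true := by decide +kernel
theorem s20 : nall 89 (fun k => ckS nobad T q B (Nat.add 1780 k)) = true := by decide +kernel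
theorem s21 : nall 89 (fun k => ckS nobad T q B (Nat.add 1869 k)) = true := by decide +kernel
theorem s22 : nall 89 (fun k => ckS nobad T q B (Nat.add 1958 k)) = true := by decide +kernel
theorem s23 : nall 89 (fun k => ckS nobad T q B (Nat.add 2047 k)) = true := by decide +kernel

end Pool.Agent.H449R2.Fl.W5
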