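import Pool.Agent.H449R2.Fl.W5Tab

/-! Kernel checks (generated). -/

set_option autoImplicit false
set_option maxRecDepth 100000

namespace Pool.Agent.H449R2.Fl.W5

theorem c3_0 : nall 16 (fun i => nall 64 fun j => ckE 64 2048 1114112 w3 l3 t3 p3 (Nat.add 0 i) j) = true := by
  decide +kernel
theorem c3_1 : nall 16 (fun i => nall 64 fun j => ckE 64 2048 1114112 w3 l3 t3 p3 (Nat.add 16 i) j) = true := by
  decide +kernel
theorem c3_2 : nall 16 (fun i => nall 64 fun j => ckE 64 2048 1114112 w3 l3 t3 p3 (Nat.add 32 i) j) = true := by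
  decide +kernel
theorem c3_3 : nall 16 (fun i => nall 64 fun j => ckE 64 2048 1114112 w3 l3 t3 p3 (Nat.add 48 i) j) = true := by
  decide +kernel
theorem c7_0 : nall 16 (fun i => nall 64 fun j => ckE 65 2048 1638400 w7 l7 t7 p7 (Nat.add 0 i) j) = true := by
  decide +kernel
theorem c7_1 : nall 16 (fun i => nall 64 fun j => ckE 65 2048 1638400 w7 l7 t7 p7 (Nat.add 16 i) j) = true := by
  decide +kernel
theorem c7_2 : nall 16 (fun i => nall 64 fun j => ckE 65 2048 1638400 w7 l7 t7 p7 (Nat.add 32 i) j) = true := by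
  decide +kernel
theorem c7_3 : nall 16 (fun i => nall 64 fun j => ckE 65 2048 1638400 w7 l7 t7 p7 (Nat.add 48 i) j) = true := by
  decide +kernel
theorem c15_0 : nall 16 (fun i => nall 64 fun j => ckE 61 2048 1114112 w15 l15 t15 p15 (Nat.add 0 i) j) = true := by
  decide +kernel
theorem c15_1 : nall 16 (fun i => nall 64 fun j => ckE 61 2048 1114112 w15 l15 t15 p15 (Nat.add 16 i) j) = true := by
  decide +kernel
theorem c15_2 : nall 16 (fun i => nall 64 fun j => ckE 61 2048 1114112 w15 l15 t15 p15 (Nat.add 32 i) j) = true := by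
  decide +kernel
theorem c15_3 : nall 16 (fun i => nall 64 fun j => ckE 61 2048 1114112 w15 l15 t15 p15 (Nat.add 48 i) j) = true := by
  decide +kernel
theorem last7 : nall 64 (fun i => Nat.beq (l7 i 64) (Nat.add 2048 (Nat.land i 1))) = true := by decide +kernel
theorem lastw7 : w7 64 = 786432 := by decide +kernel
theorem cq : nall 16 (fun i => nall 16 fun j => ckE 12 2048 65536 wq lq q (fun _ => 0) i j) = true := by
  decide +kernel

end Pool.Agent.H449R2.Fl.W5
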