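import Pool.Agent.H449R2.Fl.Bound2
import Pool.Agent.H449R2.Fl.W5T
import Pool.Agent.H449R2.Fl.W5S0
import Pool.Agent.H449R2.Fl.W5S1
import Pool.Agent.H449R2.Fl.W5S2

/-! The certificate as a bound (generated). -/

set_option autoImplicit false
set_option maxRecDepth 100000
open Finset

namespace Pool.Agent.H449R2.Fl.W5

theorem hchk : ∀ h < 2136, (nobad (rep6 h) || Nat.ble (ev T q (rep6 h)) B) = true := by
  intro h hh
  have key : ∀ g < 24, nall 89 (fun k => ckS nobad T q B (Nat.add (Nat.mul 89 g) k)) = true := by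
    intro g hg
    interval_cases g
    exacts [s0, s1, s2, s3, s4, s5, s6, s7, s8, s9, s10, s11, s12, s13, s14, s15, s16, s17, s18, s19, s20, s21, s22, s23]
  have h1 := nall_true (key (h / 89) (by omega)) (h % 89) (Nat.mod_lt _ (by norm_num))
  have h2 : Nat.add (Nat.mul 89 (h / 89)) (h % 89) = h := Nat.div_add_mod h 89
  rw [h2] at h1
  exact h1

theorem e3 (i j : ℕ) (hi : i < 64) (hj : j < 64) : ckE 64 2048 1114112 w3 l3 t3 p3 i j = true := by
  have key : ∀ g < 4, nall 16 (fun i => nall 64 fun j => ckE 64 2048 1114112 w3 l3 t3 p3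
      (Nat.add (Nat.mul 16 g) i) j) = true := by
    intro g hg
    interval_cases g
    exacts [c3_0, c3_1, c3_2, c3_3]
  have h1 := nall_true (nall_true (key (i / 16) (by omega)) (i % 16) (Nat.mod_lt _ (by norm_num))) j hj
  have h2 : Nat.add (Nat.mul 16 (i / 16)) (i % 16) = i := Nat.div_add_mod i 16
  rw [h2] at h1
  exact h1

theorem e7 (i j : ℕ) (hi : i < 64) (hj : j < 64) : ckE 65 2048 1638400 w7 l7 t7 p7 i j = true := by
  have key : ∀ g < 4, nall 16 (fun i => nall 64 fun j => ckE 65 2048 1638400 w7 l7 t7 p7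
      (Nat.add (Nat.mul 16 g) i) j) = true := by
    intro g hg
    interval_cases g
    exacts [c7_0, c7_1, c7_2, c7_3]
  have h1 := nall_true (nall_true (key (i / 16) (by omega)) (i % 16) (Nat.mod_lt _ (by norm_num))) j hj
  have h2 : Nat.add (Nat.mul 16 (i / 16)) (i % 16) = i := Nat.div_add_mod i 16
  rw [h2] at h1
  exact h1

theorem e15 (i j : ℕ) (hi : i < 64) (hj : j < 64) : ckE 61 2048 1114112 w15 l15 t15 p15 i j = true := by
  have key : ∀ g < 4, nall 16 (fun i => nall 64 fun j => ckE 61 2048 1114112 w15 l15 t15 p15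
      (Nat.add (Nat.mul 16 g) i) j) = true := by
    intro g hg
    interval_cases g
    exacts [c15_0, c15_1, c15_2, c15_3]
  have h1 := nall_true (nall_true (key (i / 16) (by omega)) (i % 16) (Nat.mod_lt _ (by norm_num))) j hj
  have h2 : Nat.add (Nat.mul 16 (i / 16)) (i % 16) = i := Nat.div_add_mod i 16
  rw [h2] at h1
  exact h1

/-- the weights -/
def W (s k : ℕ) : ℕ :=
  if s = 3 then (if k < 64 then w3 k else 0) else if s = 7 then (if k < 64 then w7 k else 0) else if s = 15 then (if k < 61 then w15 k else 0) else 0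
/-- the vectors -/
def P (s i k : ℕ) : ℤ :=
  if s = 3 then (l3 i k : ℤ) - 2048 else if s = 7 then (l7 i k : ℤ) - 2048 else if s = 15 then (l15 i k : ℤ) - 2048 else 0

theorem trunc (K : ℕ) (w : ℕ → ℕ) (f : ℕ → ℤ) (hK : K ≤ 64) :
    ∑ k ∈ range 64, ((if k < K then w k else 0 : ℕ) : ℤ) * f k = ∑ k ∈ range K, (w k : ℤ) * f k := by
  rw [← Finset.sum_subset (Finset.range_subset_range.mpr hK)]
  · exact sum_congr rfl fun k hk => by rw [if_pos (mem_range.mp hk)]
  · intro k _ hk
    rw [mem_range] at hk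
    rw [if_neg hk]; simp

/-- the objective -/
def ob (s i j : ℕ) : ℤ := 65536 * ((s % 2 : ℕ) : ℤ) +
  (if s = 7 then 65536 * (8 - 10 * (((i % 2 : ℕ) : ℤ) + ((j % 2 : ℕ) : ℤ)) +
    12 * (((i % 2 : ℕ) : ℤ) * ((j % 2 : ℕ) : ℤ))) else 0) - pen s i - pen s j

theorem l7last (i : ℕ) (hi : i < 64) : (l7 i 64 : ℤ) - 2048 = ((i % 2 : ℕ) : ℤ) := by
  have h := Nat.eq_of_beq_eq_true (nall_true last7 i hi)
  rw [show Nat.land i 1 = i % 2 from Nat.and_one_is_mod i, Nat.add_eq] at h
  rw [h]; push_cast; ring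

theorem hT : ∀ s < 16, ∀ i < 64, ∀ j < 64, (T s i j : ℤ) =
    1048576 + ∑ k ∈ range 64, (W s k : ℤ) * (P s i k * P s j k) + ob s i j := by
  intro s hs i hi j hj
  by_cases h3 : s = 3
  · subst h3
    have h := ckE_true (e3 i j hi hj)
    have h2 : T 3 i j = t3 i j := rfl
    have h3 : ∑ k ∈ range 64, (W 3 k : ℤ) * (P 3 i k * P 3 j k) = ∑ k ∈ range 64, (w3 k : ℤ) *
        (((l3 i k : ℤ) - 2048) * ((l3 j k : ℤ) - 2048)) :=
      trunc 64 w3 (fun k => ((l3 i k : ℤ) - 2048) * ((l3 j k : ℤ) - 2048)) (by norm_num)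
    have h4 : ∀ i, pen 3 i = p3 i := fun i => rfl
    unfold ob
    rw [if_neg (by norm_num), h2, h3, h, h4, h4]
    push_cast
    ring
  by_cases h7 : s = 7
  · subst h7
    have h := ckE_true (e7 i j hi hj)
    have h2 : T 7 i j = t7 i j := rfl
    have h3 : ∑ k ∈ range 64, (W 7 k : ℤ) * (P 7 i k * P 7 j k) = ∑ k ∈ range 64, (w7 k : ℤ) *
        (((l7 i k : ℤ) - 2048) * ((l7 j k : ℤ) - 2048)) :=
      trunc 64 w7 (fun k => ((l7 i k : ℤ) - 2048) * ((l7 j k : ℤ) - 2048)) (by norm_num)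
    rw [show (65 : ℕ) = 64 + 1 from rfl, Finset.sum_range_succ] at h
    push_cast at h
    rw [lastw7, l7last i hi, l7last j hj] at h
    have h4 : ∀ i, (p7 i : ℤ) = 655360 * ((i % 2 : ℕ) : ℤ) := by
      intro i
      unfold p7
      rw [show Nat.land i 1 = i % 2 from Nat.and_one_is_mod i, Nat.mul_eq]
      push_cast; ring
    have h5 : ∀ i, pen 7 i = 0 := fun i => rfl
    unfold ob
    rw [if_pos rfl, h2, h3, h, h4, h4, h5, h5]
    push_cast
    ring
  by_cases h15 : s = 15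
  · subst h15
    have h := ckE_true (e15 i j hi hj)
    have h2 : T 15 i j = t15 i j := rfl
    have h3 : ∑ k ∈ range 64, (W 15 k : ℤ) * (P 15 i k * P 15 j k) = ∑ k ∈ range 61, (w15 k : ℤ) *
        (((l15 i k : ℤ) - 2048) * ((l15 j k : ℤ) - 2048)) :=
      trunc 61 w15 (fun k => ((l15 i k : ℤ) - 2048) * ((l15 j k : ℤ) - 2048)) (by norm_num)
    have h4 : ∀ i, pen 15 i = p15 i := fun i => rfl
    unfold ob
    rw [if_neg (by norm_num), h2, h3, h, h4, h4]
    push_cast
    ring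
  have hW : ∀ k, W s k = 0 := fun k => by simp [W, h3, h7, h15]
  have b3 : Nat.beq s 3 = false := Bool.eq_false_iff.mpr fun h => h3 (Nat.eq_of_beq_eq_true h)
  have b7 : Nat.beq s 7 = false := Bool.eq_false_iff.mpr fun h => h7 (Nat.eq_of_beq_eq_true h)
  have b15 : Nat.beq s 15 = false := Bool.eq_false_iff.mpr fun h => h15 (Nat.eq_of_beq_eq_true h)
  have hp : ∀ i, pen s i = 0 := fun i => by
    unfold pen
    rw [b15, cond_false]
  have hTs : T s i j = 1048576 + 65536 * (s % 2) := by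
    unfold T
    rw [b3, cond_false, b7, cond_false, b15, cond_false]
    rw [show Nat.land s 1 = s % 2 from Nat.and_one_is_mod s, Nat.add_eq, Nat.mul_eq]
  unfold ob
  rw [hTs, hp, hp, if_neg h7]
  simp only [hW]
  push_cast
  simp

/-- the vectors of the two-root part -/
def G (s k : ℕ) : ℤ := (lq s k : ℤ) - 2048

theorem hq : ∀ s < 16, ∀ t < 16, (q s t : ℤ) =
    65536 + ∑ k ∈ range 12, (wq k : ℤ) * (G s k * G t k) := by
  intro s hs t ht
  have h := ckE_true (nall_true (nall_true cq s hs) t ht)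
  rw [h]
  unfold G
  push_cast
  ring

theorem bound {V : Type} [Fintype V] {e : V → V → V → ℕ} (he : Pat e) :
    720 * ∑ a, ∑ b, ∑ c, ∑ d, ∑ x, ∑ y, ob (sg e a b c d) (ta e a b c d x) (ta e a b c d y) ≤
      35389440 * (Fintype.card V : ℤ) ^ 6 := by
  have h := flag_bound2 he T q B nobad hchk (fun _ _ _ => rfl) 64 W P 12 wq G 1048576 65536
    ob hT hq
  have hB : (B : ℤ) - 720 * (1048576 + 65536) = 35389440 := by unfold B; norm_num
  rw [hB] at h
  exact h

end Pool.Agent.H449R2.Fl.W5
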