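import Pool.Agent.H449R2.Fl.W5
import Pool.Agent.H449R2.Fl.Sets5

/-! An inequality for edges, codegrees and complete five-vertex sets. -/

set_option autoImplicit false
set_option maxRecDepth 100000
open Finset

namespace Pool.Agent.H449R2.Fl.W5

theorem ckpen : nall 1024 (ckW pen 0 15728640) = true := by decide +kernel

section
variable {V : Type} {e : V → V → V → ℕ}

theorem sg_mod (he : Pat e) (a b c d : V) : sg e a b c d % 2 = e a b c := by
  have h := he.le1 a b c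
  simp only [sg, Nat.add_eq, Nat.mul_eq]
  omega

theorem ta_mod (he : Pat e) (a b c d x : V) : ta e a b c d x % 2 = e a b x := by
  have h := he.le1 a b x
  simp only [ta, Nat.add_eq, Nat.mul_eq]
  omega

variable [Fintype V]

/-- the codegree -/
def dg (e : V → V → V → ℕ) (a b : V) : ℤ := ∑ x, (e a b x : ℤ)

/-- the number of ordered pairs `c, d` with `abc`, `abd`, `acd` edges and `bcd` not an edge -/
def mx (e : V → V → V → ℕ) (a b : V) : ℤ := ∑ c, ∑ d, (if sg e a b c d = 7 then 1 else 0)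

theorem inner (u : V → ℤ) : ∑ x, ∑ y, (65536 * (8 - 10 * (u x + u y) + 12 * (u x * u y))) =
    65536 * (8 * (Fintype.card V : ℤ) ^ 2 - 20 * (Fintype.card V : ℤ) * (∑ x, u x)
      + 12 * (∑ x, u x) ^ 2) := by
  set n : ℤ := (Fintype.card V : ℤ) with hn
  have h1 : ∑ x, ∑ y, (u x * u y) = (∑ x, u x) ^ 2 := by rw [sq, sum_mul_sum]
  have h2 : ∑ x : V, ∑ y : V, (u x + u y) = 2 * n * ∑ x, u x := by
    simp only [sum_add_distrib, sum_const, card_univ, nsmul_eq_mul, ← mul_sum, ← hn]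
    ring
  have h3 : ∑ _x : V, ∑ _y : V, (8 : ℤ) = 8 * n ^ 2 := by
    simp only [sum_const, card_univ, nsmul_eq_mul, ← hn]
    ring
  have h4 : ∑ x, ∑ y, (65536 * (8 - 10 * (u x + u y) + 12 * (u x * u y))) =
      65536 * ((∑ _x : V, ∑ _y : V, (8 : ℤ)) - 10 * (∑ x, ∑ y, (u x + u y)) +
        12 * ∑ x, ∑ y, (u x * u y)) := by
    simp only [mul_sum, ← sum_sub_distrib, ← sum_add_distrib]
  rw [h4, h1, h2, h3]
  ring

omit [Fintype V] in
theorem ob_eq (he : Pat e) (a b c d x y : V) :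
    ob (sg e a b c d) (ta e a b c d x) (ta e a b c d y) =
      65536 * (e a b c : ℤ) + (if sg e a b c d = 7 then (1 : ℤ) else 0) *
        (65536 * (8 - 10 * ((e a b x : ℤ) + (e a b y : ℤ)) + 12 * ((e a b x : ℤ) * (e a b y : ℤ))))
      - pen (sg e a b c d) (ta e a b c d x) - pen (sg e a b c d) (ta e a b c d y) := by
  unfold ob
  rw [sg_mod he, ta_mod he, ta_mod he]
  by_cases h : sg e a b c d = 7
  · rw [if_pos h, if_pos h, one_mul]
  · rw [if_neg h, if_neg h, zero_mul]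

theorem ob_sum (he : Pat e) :
    ∑ a, ∑ b, ∑ c, ∑ d, ∑ x, ∑ y, ob (sg e a b c d) (ta e a b c d x) (ta e a b c d y) =
      65536 * ((Fintype.card V : ℤ) ^ 3 * ∑ a, ∑ b, ∑ c, (e a b c : ℤ)) +
      65536 * ∑ a, ∑ b, mx e a b * (4 * ((Fintype.card V : ℤ) - dg e a b) *
        (2 * (Fintype.card V : ℤ) - 3 * dg e a b)) -
      2 * (Fintype.card V : ℤ) * ∑ a, ∑ b, ∑ c, ∑ d, ∑ x,
        (pen (sg e a b c d) (ta e a b c d x) : ℤ) := by
  set n : ℤ := (Fintype.card V : ℤ) with hn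
  have h1 : ∀ a b : V, ∑ c, ∑ d, ∑ x, ∑ y,
      ((if sg e a b c d = 7 then (1 : ℤ) else 0) *
        (65536 * (8 - 10 * ((e a b x : ℤ) + (e a b y : ℤ)) +
          12 * ((e a b x : ℤ) * (e a b y : ℤ))))) =
      65536 * (mx e a b * (4 * (n - dg e a b) * (2 * n - 3 * dg e a b))) := by
    intro a b
    have h2 : ∀ c d : V, ∑ x, ∑ y,
      ((if sg e a b c d = 7 then (1 : ℤ) else 0) *
        (65536 * (8 - 10 * ((e a b x : ℤ) + (e a b y : ℤ)) +
          12 * ((e a b x : ℤ) * (e a b y : ℤ))))) =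
        (if sg e a b c d = 7 then (1 : ℤ) else 0) *
          (65536 * (8 * n ^ 2 - 20 * n * dg e a b + 12 * dg e a b ^ 2)) := by
      intro c d
      have h3 := inner fun x => (e a b x : ℤ)
      simp only [← mul_sum]
      simp only [← mul_sum] at h3
      rw [h3]
      rfl
    simp only [h2, ← sum_mul]
    unfold mx
    ring
  have h4 : ∀ a b : V, ∑ c : V, ∑ _d : V, ∑ _x : V, ∑ _y : V, 65536 * (e a b c : ℤ) =
      65536 * (n ^ 3 * ∑ c, (e a b c : ℤ)) := by
    intro a b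
    simp only [sum_const, card_univ, nsmul_eq_mul, ← hn, mul_sum]
    exact sum_congr rfl fun c _ => by ring
  have h5 : ∀ a b : V, ∑ c, ∑ d, ∑ x, ∑ _y : V, (pen (sg e a b c d) (ta e a b c d x) : ℤ) =
      n * ∑ c, ∑ d, ∑ x, (pen (sg e a b c d) (ta e a b c d x) : ℤ) := by
    intro a b
    simp only [sum_const, card_univ, nsmul_eq_mul, ← hn, ← mul_sum]
  have h6 : ∀ a b : V, ∑ c, ∑ d, ∑ _x : V, ∑ y, (pen (sg e a b c d) (ta e a b c d y) : ℤ) =
      n * ∑ c, ∑ d, ∑ x, (pen (sg e a b c d) (ta e a b c d x) : ℤ) := by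
    intro a b
    simp only [sum_const, card_univ, nsmul_eq_mul, ← hn, ← mul_sum]
  have h7 : ∀ a b : V, ∑ c, ∑ d, ∑ x, ∑ y,
      ob (sg e a b c d) (ta e a b c d x) (ta e a b c d y) =
      65536 * (n ^ 3 * ∑ c, (e a b c : ℤ)) +
      65536 * (mx e a b * (4 * (n - dg e a b) * (2 * n - 3 * dg e a b))) -
      2 * n * ∑ c, ∑ d, ∑ x, (pen (sg e a b c d) (ta e a b c d x) : ℤ) := by
    intro a b
    simp only [ob_eq he, sum_sub_distrib, sum_add_distrib]
    rw [h1, h4, h5, h6]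
    ring
  simp only [h7, sum_sub_distrib, sum_add_distrib, ← mul_sum]

end

section
variable {V : Type} [Fintype V] [DecidableEq V] {H : Finset (Finset V)}

theorem main (h3 : ∀ s ∈ H, s.card = 3) :
    24 * (Fintype.card V : ℤ) ^ 3 * (H.card : ℤ) ≤
      3 * (Fintype.card V : ℤ) ^ 6 + 1920 * (Fintype.card V : ℤ) * (N5 H 10 : ℤ) +
      16 * ∑ a, ∑ b, mx (ind H) a b * (((Fintype.card V : ℤ) - dg (ind H) a b) *
        (3 * dg (ind H) a b - 2 * (Fintype.card V : ℤ))) := by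
  have h1 := bound (ind_pat h3)
  rw [ob_sum (ind_pat h3)] at h1
  have h2 := pen_total h3 pen 0 15728640 fun M hM => nall_true ckpen M hM
  have h5 : ∑ a, ∑ b, ∑ c, (ind H a b c : ℤ) = 6 * (H.card : ℤ) := by exact_mod_cast sum_ind h3
  have h6 : ∑ a, ∑ b, ∑ c, ∑ d, ∑ x,
      (pen (sg (ind H) a b c d) (ta (ind H) a b c d x) : ℤ) ≤
        15728640 * (N5 H 10 : ℤ) := by
    have h7 : ∑ a, ∑ b, ∑ c, ∑ d, ∑ x, pen (sg (ind H) a b c d) (ta (ind H) a b c d x) ≤
        15728640 * N5 H 10 := by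
      refine h2.trans (le_of_eq ?_)
      ring
    exact_mod_cast h7
  rw [h5] at h1
  set n := (Fintype.card V : ℤ) with hn
  have hz : (0 : ℤ) ≤ n := by rw [hn]; positivity
  have h7 := mul_le_mul_of_nonneg_left h6 (show (0 : ℤ) ≤ 1440 * n by positivity)
  have h8 : ∑ a, ∑ b, mx (ind H) a b * (4 * (n - dg (ind H) a b) * (2 * n - 3 * dg (ind H) a b)) =
      -4 * ∑ a, ∑ b, mx (ind H) a b * ((n - dg (ind H) a b) * (3 * dg (ind H) a b - 2 * n)) := by
    simp only [mul_sum]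
    exact sum_congr rfl fun a _ => sum_congr rfl fun b _ => by ring
  rw [h8] at h1
  linarith

end

end Pool.Agent.H449R2.Fl.W5
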